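import Mathlib

/-!
Quasi-proper maps on a two-sheeted branched covering of the disc: definitions.
-/

set_option autoImplicit false

namespace Pool.Agent.H.MP_c9945a_an

open Complex Set Filter Topology
open scoped Manifold ContDiff ComplexConjugate

/-- Blaschke factor with zero `a` -/
noncomputable def bf (a z : ℂ) : ℂ :=
  if a = 0 then z else ((‖a‖ : ℂ) / a) * ((a - z) / (1 - conj a * z))

/-- `f` is, on the unit disc, a Blaschke product with the zeros `a i` (repeated according to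
multiplicity; the index type may be finite or infinite), with a unimodular constant factor `c`. -/
def IsBlaschkeWith {ι : Type} (a : ι → ℂ) (f : ℂ → ℂ) : Prop :=
  (∀ i, ‖a i‖ < 1) ∧ Summable (fun i => 1 - ‖a i‖) ∧
    ∃ (c : ℂ) (g : ℂ → ℂ), ‖c‖ = 1 ∧
      ∀ z, ‖z‖ < 1 → HasProd (fun i => bf (a i) z) (g z) ∧ f z = c * g z

/-- `f` is (on the unit disc) a finite or infinite Blaschke product -/
def IsBlaschke (f : ℂ → ℂ) : Prop := ∃ (ι : Type) (a : ι → ℂ), IsBlaschkeWith a f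

section RS

variable {X : Type} [TopologicalSpace X] [ChartedSpace ℂ X]

/-- `f` is a holomorphic function on the Riemann surface `X` -/
def Hol (f : X → ℂ) : Prop := MDifferentiable 𝓘(ℂ) 𝓘(ℂ) f

/-- the multiplicity with which the holomorphic function `f` takes the value `f x` at `x` -/
noncomputable def mult (f : X → ℂ) (x : X) : ℕ∞ :=
  analyticOrderAt (fun z => f ((chartAt ℂ x).symm z) - f x) (chartAt ℂ x x)

/-- `x` is a zero of `dφ` -/
def IsCrit (φ : X → ℂ) (x : X) : Prop := mfderiv 𝓘(ℂ) 𝓘(ℂ) φ x = 0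

/-- `φ : X → 𝔻` is a proper holomorphic map with exactly two zeros counting multiplicity (two simple
zeros or one double zero), and `σ` is the sheet interchange -/
structure TwoSheeted (φ : X → ℂ) (σ : X → X) : Prop where
  hol : Hol φ
  lt_one : ∀ x, ‖φ x‖ < 1
  proper : ∀ K : Set ℂ, IsCompact K → K ⊆ Metric.ball 0 1 → IsCompact (φ ⁻¹' K)
  two_zeros : (∃ x y, x ≠ y ∧ φ ⁻¹' {0} = {x, y} ∧ mult φ x = 1 ∧ mult φ y = 1) ∨
    (∃ x, φ ⁻¹' {0} = {x} ∧ mult φ x = 2)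
  sigma_hol : MDifferentiable 𝓘(ℂ) 𝓘(ℂ) σ
  phi_sigma : ∀ x, φ (σ x) = φ x
  sigma_sigma : ∀ x, σ (σ x) = x
  sigma_ne : σ ≠ id

/-- quasi-proper maps `X → 𝔻` -/
def QuasiProper (θ : X → ℂ) : Prop :=
  Hol θ ∧ (∀ x, ‖θ x‖ < 1) ∧ ∀ f : X → ℂ, Hol f → ⨆ x, ‖f x‖ₑ = ⨆ x, ‖θ x * f x‖ₑ

/-- irreducible quasi-proper maps -/
def Irred (θ : X → ℂ) : Prop :=
  QuasiProper θ ∧ ¬ ∃ θ₁ θ₂ : X → ℂ, QuasiProper θ₁ ∧ QuasiProper θ₂ ∧ ∀ x, θ x = θ₁ x * θ₂ x

end RS

end Pool.Agent.H.MP_c9945a_an
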