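import Pool.Agent.H.MP_c9945a_an.DescentC

set_option autoImplicit false
set_option linter.unusedSectionVars false

namespace Pool.Agent.H.MP_c9945a_an

open Complex Set Filter Topology
open scoped Manifold ContDiff ComplexConjugate

section RS
variable {X : Type} [TopologicalSpace X] [T2Space X] [ChartedSpace ℂ X]
  [IsManifold 𝓘(ℂ) ω X] [ConnectedSpace X]

/-- identity theorem for self-maps -/
theorem sigma_identity {σ : X → X} (hσ : MDifferentiable 𝓘(ℂ) 𝓘(ℂ) σ) (x : X)
    (h : ∀ᶠ y in 𝓝 x, σ y = y) (y : X) : σ y = y := by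
  have : IsManifold 𝓘(ℂ) 1 X := IsManifold.of_le (n := ω) (by simp)
  have hc : Continuous σ := hσ.continuous
  have hcl : IsClopen {x | ∀ᶠ y in 𝓝 x, σ y = y} := by
    constructor
    · rw [← isOpen_compl_iff, isOpen_iff_mem_nhds]
      intro x hx
      by_cases hfix : σ x = x
      · -- local dichotomy in the chart
        have hO : IsOpen ((chartAt ℂ x).target ∩ (chartAt ℂ x).symm ⁻¹' (σ ⁻¹' (chartAt ℂ x).source)) :=
          (chartAt ℂ x).isOpen_inter_preimage_symm ((chartAt ℂ x).open_source.preimage hc)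
        have hmem : chartAt ℂ x x ∈
            ((chartAt ℂ x).target ∩ (chartAt ℂ x).symm ⁻¹' (σ ⁻¹' (chartAt ℂ x).source)) := by
          refine ⟨mem_chart_target ℂ x, ?_⟩
          simp [hfix]
        have han : AnalyticAt ℂ (fun z => chartAt ℂ x (σ ((chartAt ℂ x).symm z)))
            (chartAt ℂ x x) := by
          have hd : DifferentiableOn ℂ (fun z => chartAt ℂ x (σ ((chartAt ℂ x).symm z)))
              ((chartAt ℂ x).target ∩ (chartAt ℂ x).symm ⁻¹' (σ ⁻¹' (chartAt ℂ x).source)) := by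
            intro z hz
            apply DifferentiableAt.differentiableWithinAt
            rw [← mdifferentiableAt_iff_differentiableAt]
            have e1 := mdifferentiableAt_atlas_symm (I := 𝓘(ℂ)) (chart_mem_atlas ℂ x) hz.1
            have e2 := hσ ((chartAt ℂ x).symm z)
            have e3 := mdifferentiableAt_atlas (I := 𝓘(ℂ)) (chart_mem_atlas ℂ x)
              (show σ ((chartAt ℂ x).symm z) ∈ (chartAt ℂ x).source from hz.2)
            exact e3.comp z (e2.comp z e1)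
          exact hd.analyticOnNhd hO _ hmem
        rcases han.eventually_eq_or_eventually_ne analyticAt_id with h1 | h1
        · exfalso
          apply hx
          have h2 : ∀ᶠ z in 𝓝 (chartAt ℂ x x), z ∈
            ((chartAt ℂ x).target ∩ (chartAt ℂ x).symm ⁻¹' (σ ⁻¹' (chartAt ℂ x).source)) :=
            hO.mem_nhds hmem
          change ∀ᶠ y in 𝓝 x, σ y = y
          rw [eventually_chart]
          filter_upwards [h1, h2] with z hz1 hz2
          apply (chartAt ℂ x).injOn hz2.2 ((chartAt ℂ x).map_target hz2.1)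
          rw [(chartAt ℂ x).right_inv hz2.1]
          exact hz1
        · have h3 : ∀ᶠ y in 𝓝[≠] x, σ y ≠ y := by
            rw [eventually_nhdsWithin_iff] at h1 ⊢
            rw [← map_chart_nhds x, eventually_map] at h1
            have h2 : ∀ᶠ y in 𝓝 x, y ∈ (chartAt ℂ x).source :=
              (chartAt ℂ x).open_source.mem_nhds (mem_chart_source ℂ x)
            filter_upwards [h1, h2] with y hy hy2 hne hy3
            have h4 := hy (fun hh => hne ((chartAt ℂ x).injOn hy2 (mem_chart_source ℂ x) hh))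
            apply h4
            rw [(chartAt ℂ x).left_inv hy2, hy3]; rfl
          rw [eventually_nhdsWithin_iff] at h3
          filter_upwards [h3.eventually_nhds] with y hy hy2
          by_cases hyx : y = x
          · subst hyx; exact hx hy2
          · have h4 := (hy.and hy2).self_of_nhds
            exact h4.1 hyx h4.2
      · have h1 : ∀ᶠ y in 𝓝 x, σ y ≠ y := by
          have : IsOpen {y | σ y ≠ y} := isOpen_ne_fun hc continuous_id
          exact this.mem_nhds hfix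
        filter_upwards [h1] with y hy hy2
        exact hy hy2.self_of_nhds
    · exact isOpen_setOfPred_eventually_nhds
  have h4 := hcl.eq_univ ⟨x, h⟩
  have h5 : y ∈ {x | ∀ᶠ y in 𝓝 x, σ y = y} := by rw [h4]; trivial
  exact h5.self_of_nhds

theorem TwoSheeted.sigma_ne_self {φ : X → ℂ} {σ : X → X} (h : TwoSheeted φ σ) {x : X}
    (hx : ¬ IsCrit φ x) : σ x ≠ x := by
  intro hfix
  obtain ⟨U, hU1, hU2, hU3⟩ := locinj h.hol hx
  have hc : Continuous σ := h.sigma_hol.continuous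
  have h1 : ∀ᶠ y in 𝓝 x, σ y ∈ U := by
    have : Tendsto σ (𝓝 x) (𝓝 x) := by
      have := hc.tendsto x
      rwa [hfix] at this
    exact this.eventually hU1
  have h2 : ∀ᶠ y in 𝓝 x, y ∈ U := hU1
  apply h.sigma_ne
  funext y
  apply sigma_identity h.sigma_hol x
  filter_upwards [h1, h2] with y hy1 hy2
  exact hU3 hy1 hy2 (h.phi_sigma y)

/-- A1: the fibers are the orbits of `σ` -/
theorem fiber {φ : X → ℂ} {σ : X → X} (h : TwoSheeted φ σ)
    {B : ℂ → ℂ} (hB : DifferentiableOn ℂ B (Metric.ball 0 1)) (hB0 : ∃ z ∈ Metric.ball (0:ℂ) 1, B z ≠ 0)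
    (hcrit : ∀ z ∈ Metric.ball (0:ℂ) 1, B z = 0 ↔ ∃ x, φ x = z ∧ IsCrit φ x)
    (x y : X) (hxy : φ x = φ y) : y = x ∨ y = σ x := by
  by_contra hcon
  push Not at hcon
  obtain ⟨h1, h2⟩ := hcon
  have hc : Continuous σ := h.sigma_hol.continuous
  obtain ⟨A, A2, hA, hA2, hxA, hyA, hd1⟩ := t2_separation h1
  obtain ⟨C, C2, hC, hC2, hxC, hyC, hd2⟩ := t2_separation h2
  have n1 : φ '' (A2 ∩ σ ⁻¹' C2) ∈ 𝓝 (φ x) :=
    h.isOpenMap.image_mem_nhds ((hA2.inter (hC2.preimage hc)).mem_nhds ⟨hyA, hyC⟩)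
  have n2 : φ '' (A ∩ C) ∈ 𝓝 (φ x) := by
    rw [hxy]
    exact h.isOpenMap.image_mem_nhds ((hA.inter hC).mem_nhds ⟨hxA, hxC⟩)
  have hball : φ x ∈ Metric.ball (0:ℂ) 1 := by simpa using h.lt_one x
  have n3 : ∀ᶠ w in 𝓝[≠] (φ x), B w ≠ 0 := B_isolated hB hB0 hball
  have n4 : ∀ᶠ w in 𝓝[≠] (φ x), w ∈ Metric.ball (0:ℂ) 1 :=
    nhdsWithin_le_nhds (Metric.isOpen_ball.mem_nhds hball)
  have n5 : ∀ᶠ w in 𝓝[≠] (φ x), w ∈ φ '' (A2 ∩ σ ⁻¹' C2) ∧ w ∈ φ '' (A ∩ C) :=
    nhdsWithin_le_nhds (inter_mem n1 n2)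
  obtain ⟨w, ⟨hw1, hw2⟩, ⟨u, hu, hu2⟩, ⟨v, hv, hv2⟩⟩ := ((n3.and n4).and n5).exists
  have h3 := h.not_three hB hB0 hcrit hw2 hw1
  have h4 : σ u ≠ u := by
    apply h.sigma_ne_self
    intro hcr
    exact hw1 ((hcrit w hw2).mpr ⟨u, hu2, hcr⟩)
  apply h3
  refine ⟨u, σ u, v, h4.symm, ?_, ?_, hu2, by rw [h.phi_sigma, hu2], hv2⟩
  · rintro rfl
    exact disjoint_left.mp hd1 hv.1 hu.1
  · rintro rfl
    exact disjoint_left.mp hd2 hv.2 hu.2

/-- A3: descent of invariant functions -/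
theorem descent {φ : X → ℂ} {σ : X → X} (h : TwoSheeted φ σ)
    {B : ℂ → ℂ} (hB : DifferentiableOn ℂ B (Metric.ball 0 1)) (hB0 : ∃ z ∈ Metric.ball (0:ℂ) 1, B z ≠ 0)
    (hcrit : ∀ z ∈ Metric.ball (0:ℂ) 1, B z = 0 ↔ ∃ x, φ x = z ∧ IsCrit φ x)
    (f : X → ℂ) (hf : Hol f) (hfs : ∀ x, f (σ x) = f x) :
    ∃ g : ℂ → ℂ, DifferentiableOn ℂ g (Metric.ball 0 1) ∧ ∀ x, f x = g (φ x) := by
  classical
  have hsurj := surj h
  set g : ℂ → ℂ := fun z => if hz : ‖z‖ < 1 then f (hsurj z hz).choose else 0 with hg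
  have hgf : ∀ x, f x = g (φ x) := by
    intro x
    have hx := h.lt_one x
    simp only [hg, hx, dif_pos]
    rcases fiber h hB hB0 hcrit x _ (hsurj (φ x) hx).choose_spec.symm with h1 | h1
    · rw [h1]
    · rw [h1, hfs]
  clear_value g
  have hcont : ∀ z ∈ Metric.ball (0:ℂ) 1, ContinuousAt g z := by
    intro z hz
    obtain ⟨x, rfl⟩ := hsurj z (by simpa using hz)
    rw [ContinuousAt, ← hgf]
    have h1 : Tendsto (g ∘ φ) (𝓝 x) (𝓝 (f x)) := by
      have : g ∘ φ = f := by funext y; exact (hgf y).symm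
      rw [this]; exact hf.cont.tendsto x
    rw [← tendsto_map'_iff] at h1
    exact h1.mono_left (h.nhds_le x)
  have hdiff : ∀ z ∈ Metric.ball (0:ℂ) 1, B z ≠ 0 → DifferentiableAt ℂ g z := by
    intro z hz hBz
    obtain ⟨x, rfl⟩ := hsurj z (by simpa using hz)
    apply diff_of_local h.hol (fun hcr => hBz ((hcrit _ hz).mpr ⟨x, rfl, hcr⟩)) hf
    exact Eventually.of_forall hgf
  refine ⟨g, ?_, hgf⟩
  intro z hz
  apply DifferentiableAt.differentiableWithinAt
  apply AnalyticAt.differentiableAt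
  apply Complex.analyticAt_of_differentiable_on_punctured_nhds_of_continuousAt _ (hcont z hz)
  have n4 : ∀ᶠ w in 𝓝[≠] z, w ∈ Metric.ball (0:ℂ) 1 :=
    nhdsWithin_le_nhds (Metric.isOpen_ball.mem_nhds hz)
  filter_upwards [B_isolated hB hB0 hz, n4] with w hw1 hw2
  exact hdiff w hw2 hw1

theorem Hol.sub' {f g : X → ℂ} (hf : Hol f) (hg : Hol g) : Hol (fun x => f x - g x) := by
  unfold Hol at *
  intro x
  exact (hf x).sub (hg x)

theorem Hol.add' {f g : X → ℂ} (hf : Hol f) (hg : Hol g) : Hol (fun x => f x + g x) := by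
  unfold Hol at *
  intro x
  exact (hf x).add (hg x)

theorem Hol.mul' {f g : X → ℂ} (hf : Hol f) (hg : Hol g) : Hol (fun x => f x * g x) := by
  unfold Hol at *
  intro x
  exact (hf x).mul (hg x)

theorem Hol.comp_disc {φ : X → ℂ} (hφ : Hol φ) (h1 : ∀ x, ‖φ x‖ < 1) {g : ℂ → ℂ}
    (hg : DifferentiableOn ℂ g (Metric.ball 0 1)) : Hol (fun x => g (φ x)) := by
  intro x
  have : DifferentiableAt ℂ g (φ x) :=
    hg.differentiableAt (Metric.isOpen_ball.mem_nhds (by simpa using h1 x))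
  exact this.mdifferentiableAt.comp x (hφ x)

theorem Hol.comp_self {f : X → ℂ} (hf : Hol f) {σ : X → X}
    (hσ : MDifferentiable 𝓘(ℂ) 𝓘(ℂ) σ) : Hol (fun x => f (σ x)) := by
  intro x
  exact (hf (σ x)).comp x (hσ x)

/-- integral domain property -/
theorem eq_zero_or {f g : X → ℂ} (hf : Hol f) (hg : Hol g) (h : ∀ x, f x * g x = 0) :
    (∀ x, f x = 0) ∨ (∀ x, g x = 0) := by
  by_cases h0 : ∀ x, f x = 0
  · left; exact h0
  · right
    push Not at h0
    obtain ⟨x, hx⟩ := h0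
    intro y
    apply identity hg (Hol.const 0) x
    have : ∀ᶠ y in 𝓝 x, f y ≠ 0 := hf.cont.continuousAt.eventually_ne hx
    filter_upwards [this] with y hy
    exact (mul_eq_zero.mp (h y)).resolve_left hy

/-- A4: -/
theorem theta_anti {φ : X → ℂ} {σ : X → X} (h : TwoSheeted φ σ)
    {B : ℂ → ℂ} (hB : DifferentiableOn ℂ B (Metric.ball 0 1)) (hB0 : ∃ z ∈ Metric.ball (0:ℂ) 1, B z ≠ 0)
    (hBs : ∀ z ∈ Metric.ball (0:ℂ) 1, B z = 0 → deriv B z ≠ 0)
    (hBz : ∃ z ∈ Metric.ball (0:ℂ) 1, B z = 0)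
    (hcrit : ∀ z ∈ Metric.ball (0:ℂ) 1, B z = 0 ↔ ∃ x, φ x = z ∧ IsCrit φ x)
    (t : X → ℂ) (ht : Hol t) (ht2 : ∀ x, t x ^ 2 = B (φ x)) (x : X) : t (σ x) = - t x := by
  have hts : Hol (fun x => t (σ x)) := ht.comp_self h.sigma_hol
  rcases eq_zero_or (hts.sub' ht) (hts.add' ht) (by
    intro x
    have : (t (σ x) - t x) * (t (σ x) + t x) = t (σ x) ^ 2 - t x ^ 2 := by ring
    rw [this, ht2, ht2, h.phi_sigma, sub_self]) with h1 | h1
  · exfalso
    obtain ⟨g, hg1, hg2⟩ := descent h hB hB0 hcrit t ht (fun x => sub_eq_zero.mp (h1 x))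
    obtain ⟨z, hz, hBz2⟩ := hBz
    apply hBs z hz hBz2
    have hev : B =ᶠ[𝓝 z] fun w => g w ^ 2 := by
      filter_upwards [Metric.isOpen_ball.mem_nhds hz] with w hw
      obtain ⟨y, rfl⟩ := surj h w (by simpa using hw)
      rw [← ht2, hg2]
    have hgd : DifferentiableAt ℂ g z := hg1.differentiableAt (Metric.isOpen_ball.mem_nhds hz)
    have hg0 : g z = 0 := by
      have := hev.self_of_nhds
      rw [hBz2] at this
      exact pow_eq_zero_iff (two_ne_zero) |>.mp this.symm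
    rw [hev.deriv_eq]
    have := hgd.hasDerivAt.fun_pow 2
    rw [this.deriv, hg0]
    simp
  · have := h1 x
    exact eq_neg_of_add_eq_zero_left this

/-- A5: decomposition `f = a ∘ φ + (b ∘ φ) t` -/
theorem decomp {φ : X → ℂ} {σ : X → X} (h : TwoSheeted φ σ)
    {B : ℂ → ℂ} (hB : DifferentiableOn ℂ B (Metric.ball 0 1)) (hB0 : ∃ z ∈ Metric.ball (0:ℂ) 1, B z ≠ 0)
    (hBs : ∀ z ∈ Metric.ball (0:ℂ) 1, B z = 0 → deriv B z ≠ 0)
    (hBz : ∃ z ∈ Metric.ball (0:ℂ) 1, B z = 0)
    (hcrit : ∀ z ∈ Metric.ball (0:ℂ) 1, B z = 0 ↔ ∃ x, φ x = z ∧ IsCrit φ x)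
    (t : X → ℂ) (ht : Hol t) (ht2 : ∀ x, t x ^ 2 = B (φ x)) (f : X → ℂ) (hf : Hol f) :
    ∃ a b : ℂ → ℂ, DifferentiableOn ℂ a (Metric.ball 0 1) ∧ DifferentiableOn ℂ b (Metric.ball 0 1) ∧
      ∀ x, f x = a (φ x) + b (φ x) * t x := by
  classical
  have hanti := theta_anti h hB hB0 hBs hBz hcrit t ht ht2
  have hfs : Hol (fun x => f (σ x)) := hf.comp_self h.sigma_hol
  obtain ⟨a, ha1, ha2⟩ := descent h hB hB0 hcrit (fun x => (1/2) * (f x + f (σ x)))
    ((Hol.const (1/2)).mul' (hf.add' hfs)) (by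
      intro x
      simp only [h.sigma_sigma]; ring)
  obtain ⟨G, hG1, hG2⟩ := descent h hB hB0 hcrit (fun x => ((1/2) * (f x - f (σ x))) * t x)
    (((Hol.const (1/2)).mul' (hf.sub' hfs)).mul' ht) (by
      intro x
      simp only [h.sigma_sigma, hanti]; ring)
  -- `G = B b`
  have hGB : ∀ z ∈ Metric.ball (0:ℂ) 1, B z = 0 → G z = 0 := by
    intro z hz hz2
    obtain ⟨x, rfl⟩ := surj h z (by simpa using hz)
    rw [← hG2]
    have : t x = 0 := by
      have := ht2 x
      rw [hz2] at this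
      exact pow_eq_zero_iff (two_ne_zero) |>.mp this
    rw [this, mul_zero]
  set b : ℂ → ℂ := fun z => if B z = 0 then deriv G z / deriv B z else G z / B z with hb
  have hb1 : ∀ z ∈ Metric.ball (0:ℂ) 1, G z = B z * b z := by
    intro z hz
    simp only [hb]
    split_ifs with h1
    · rw [hGB z hz h1, h1, zero_mul]
    · field_simp
  have hb2 : DifferentiableOn ℂ b (Metric.ball 0 1) := by
    intro z hz
    apply DifferentiableAt.differentiableWithinAt
    have hnz := Metric.isOpen_ball.mem_nhds hz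
    by_cases h1 : B z = 0
    · have hG0 := hGB z hz h1
      have e1 : DifferentiableAt ℂ (dslope G z) z :=
        ((Complex.differentiableOn_dslope hnz).mpr hG1).differentiableAt hnz
      have e2 : DifferentiableAt ℂ (dslope B z) z :=
        ((Complex.differentiableOn_dslope hnz).mpr hB).differentiableAt hnz
      have e3 : dslope B z z ≠ 0 := by rw [dslope_same]; exact hBs z hz h1
      have e4 : (fun w => dslope G z w / dslope B z w) =ᶠ[𝓝 z] b := by
        have h2 := B_isolated hB hB0 hz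
        rw [eventually_nhdsWithin_iff] at h2
        filter_upwards [h2] with w hw
        by_cases hwz : w = z
        · subst hwz
          simp [hb, h1, dslope_same]
        · have hBw := hw hwz
          simp only [hb, hBw, if_false]
          rw [dslope_of_ne _ hwz, dslope_of_ne _ hwz, slope_def_field, slope_def_field, hG0, h1]
          have : w - z ≠ 0 := sub_ne_zero.mpr hwz
          field_simp
          simp
      exact e4.differentiableAt_iff.mp (e1.div e2 e3)
    · have e4 : (fun w => G w / B w) =ᶠ[𝓝 z] b := by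
        have : ∀ᶠ w in 𝓝 z, B w ≠ 0 :=
          (hB.differentiableAt hnz).continuousAt.eventually_ne h1
        filter_upwards [this] with w hw
        simp [hb, hw]
      exact e4.differentiableAt_iff.mp ((hG1.differentiableAt hnz).div (hB.differentiableAt hnz) h1)
  clear_value b
  refine ⟨a, b, ha1, hb2, ?_⟩
  have hbφ : Hol (fun x => b (φ x)) := h.hol.comp_disc h.lt_one hb2
  have hodd : ∀ x, (1/2) * (f x - f (σ x)) - b (φ x) * t x = 0 := by
    rcases eq_zero_or ht (((Hol.const (1/2)).mul' (hf.sub' hfs)).sub' (hbφ.mul' ht)) (by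
      intro x
      have e1 := hG2 x
      have e2 := hb1 (φ x) (by simpa using h.lt_one x)
      have e3 := ht2 x
      have : t x * ((1/2) * (f x - f (σ x)) - b (φ x) * t x)
        = (1/2) * (f x - f (σ x)) * t x - b (φ x) * t x ^ 2 := by ring
      rw [this, e1, e2, e3]; ring) with h1 | h1
    · exfalso
      obtain ⟨z, hz, hz2⟩ := hB0
      obtain ⟨x, rfl⟩ := surj h z (by simpa using hz)
      apply hz2
      rw [← ht2, h1]; simp
    · exact h1
  intro x
  rw [← ha2 x]
  have := hodd x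
  linear_combination this
  

end RS

end Pool.Agent.H.MP_c9945a_an
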