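import Pool.Agent.H.MP_c9945a_an.Defs

set_option autoImplicit false
set_option linter.unusedSectionVars false

namespace Pool.Agent.H.MP_c9945a_an

open Complex Set Filter Topology
open scoped Manifold ContDiff ComplexConjugate

section RS
variable {X : Type} [TopologicalSpace X] [ChartedSpace ℂ X] [IsManifold 𝓘(ℂ) ω X]

/-- the local representation -/
noncomputable def rep (f : X → ℂ) (x : X) : ℂ → ℂ := fun z => f ((chartAt ℂ x).symm z)

theorem rep_analyticOnNhd {f : X → ℂ} (hf : Hol f) (x : X) :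
    AnalyticOnNhd ℂ (rep f x) (chartAt ℂ x).target := by
  have : IsManifold 𝓘(ℂ) 1 X := IsManifold.of_le (n := ω) (by simp)
  apply DifferentiableOn.analyticOnNhd _ (chartAt ℂ x).open_target
  intro z hz
  apply DifferentiableAt.differentiableWithinAt
  rw [← mdifferentiableAt_iff_differentiableAt]
  exact (hf ((chartAt ℂ x).symm z)).comp z (mdifferentiableAt_atlas_symm (chart_mem_atlas ℂ x) hz)

theorem rep_analyticAt {f : X → ℂ} (hf : Hol f) (x : X) :
    AnalyticAt ℂ (rep f x) (chartAt ℂ x x) :=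
  rep_analyticOnNhd hf x _ (mem_chart_target ℂ x)

theorem rep_apply (f : X → ℂ) (x : X) : rep f x (chartAt ℂ x x) = f x := by
  simp [rep]

theorem map_symm_nhds (x : X) : map (chartAt ℂ x).symm (𝓝 (chartAt ℂ x x)) = 𝓝 x := by
  exact (chartAt ℂ x).symm_map_nhds_eq (mem_chart_source ℂ x)

theorem map_chart_nhds (x : X) : map (chartAt ℂ x) (𝓝 x) = 𝓝 (chartAt ℂ x x) := by
  exact (chartAt ℂ x).map_nhds_eq (mem_chart_source ℂ x)

theorem eventually_chart {p : X → Prop} (x : X) :
    (∀ᶠ y in 𝓝 x, p y) ↔ ∀ᶠ z in 𝓝 (chartAt ℂ x x), p ((chartAt ℂ x).symm z) := by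
  rw [← map_symm_nhds x]; rfl

theorem isCrit_iff {f : X → ℂ} (hf : Hol f) (x : X) :
    IsCrit f x ↔ deriv (rep f x) (chartAt ℂ x x) = 0 := by
  unfold IsCrit
  rw [MDifferentiableAt.mfderiv (hf x)]
  have h1 : writtenInExtChartAt 𝓘(ℂ) 𝓘(ℂ) x f = rep f x := by
    ext z
    simp [writtenInExtChartAt, rep, chartAt_self_eq]
  rw [h1]
  simp only [modelWithCornersSelf_coe, range_id, fderivWithin_univ]
  have h2 : (extChartAt 𝓘(ℂ) x) x = chartAt ℂ x x := by simp
  rw [h2]
  constructor
  · intro h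
    have h3 : fderiv ℂ (rep f x) (chartAt ℂ x x) = 0 := h
    rw [← fderiv_apply_one_eq_deriv, h3]
    rfl
  · intro h
    have := (rep_analyticAt hf x).differentiableAt.hasDerivAt
    rw [h] at this
    have h3 := this.hasFDerivAt.fderiv
    rw [h3]
    exact ContinuousLinearMap.toSpanSingleton_zero ℂ

/-- local dichotomy -/
theorem eq_or_ne {f g : X → ℂ} (hf : Hol f) (hg : Hol g) (x : X) :
    (∀ᶠ y in 𝓝 x, f y = g y) ∨ (∀ᶠ y in 𝓝[≠] x, f y ≠ g y) := by
  rcases (rep_analyticAt hf x).eventually_eq_or_eventually_ne (rep_analyticAt hg x) with h | h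
  · left
    rw [eventually_chart]
    exact h
  · right
    rw [eventually_nhdsWithin_iff] at h ⊢
    rw [← map_chart_nhds x, eventually_map] at h
    have h2 : ∀ᶠ y in 𝓝 x, y ∈ (chartAt ℂ x).source :=
      (chartAt ℂ x).open_source.mem_nhds (mem_chart_source ℂ x)
    filter_upwards [h, h2] with y hy hy2 hne
    have h3 := hy (fun hh => hne ((chartAt ℂ x).injOn hy2 (mem_chart_source ℂ x) hh))
    simpa [rep, (chartAt ℂ x).left_inv hy2] using h3

/-- identity theorem -/
theorem identity [ConnectedSpace X] {f g : X → ℂ} (hf : Hol f) (hg : Hol g) (x : X)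
    (h : ∀ᶠ y in 𝓝 x, f y = g y) (y : X) : f y = g y := by
  have hcl : IsClopen {x | ∀ᶠ y in 𝓝 x, f y = g y} := by
    constructor
    · rw [← isOpen_compl_iff]
      rw [isOpen_iff_mem_nhds]
      intro x hx
      rcases eq_or_ne hf hg x with h1 | h1
      · exact absurd h1 hx
      · rw [eventually_nhdsWithin_iff] at h1
        have h2 := h1.eventually_nhds
        filter_upwards [h2] with y hy hy2
        by_cases hyx : y = x
        · subst hyx; exact hx hy2
        · have h3 := (hy.and hy2).self_of_nhds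
          exact h3.1 hyx h3.2
    · exact isOpen_setOfPred_eventually_nhds
  have h4 := hcl.eq_univ ⟨x, h⟩
  have h5 : y ∈ {x | ∀ᶠ y in 𝓝 x, f y = g y} := by rw [h4]; trivial
  exact h5.self_of_nhds

end RS

end Pool.Agent.H.MP_c9945a_an
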