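import Pool.Agent.H.MP_c9945a_an.DescentA

set_option autoImplicit false
set_option linter.unusedSectionVars false

namespace Pool.Agent.H.MP_c9945a_an

open Complex Set Filter Topology
open scoped Manifold ContDiff ComplexConjugate

section RS
variable {X : Type} [TopologicalSpace X] [ChartedSpace ℂ X] [IsManifold 𝓘(ℂ) ω X]

theorem Hol.cont {f : X → ℂ} (hf : Hol f) : Continuous f := MDifferentiable.continuous hf

/-- local injectivity at noncritical points -/
theorem locinj {φ : X → ℂ} (hφ : Hol φ) {x : X} (hx : ¬ IsCrit φ x) :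
    ∃ U ∈ 𝓝 x, IsOpen U ∧ InjOn φ U := by
  rw [isCrit_iff hφ] at hx
  have h1 := (rep_analyticAt hφ x).hasStrictDerivAt
  have h2 := h1.eventually_left_inverse hx
  have h3 : ∀ᶠ y in 𝓝 x, y ∈ (chartAt ℂ x).source :=
    (chartAt ℂ x).open_source.mem_nhds (mem_chart_source ℂ x)
  rw [← map_chart_nhds x, eventually_map] at h2
  have h4 := h2.and h3
  obtain ⟨U, hU1, hU2, hU3⟩ := eventually_nhds_iff.mp h4
  refine ⟨U, hU2.mem_nhds hU3, hU2, ?_⟩
  intro a ha b hb hab
  obtain ⟨ha1, ha2⟩ := hU1 a ha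
  obtain ⟨hb1, hb2⟩ := hU1 b hb
  apply (chartAt ℂ x).injOn ha2 hb2
  rw [← ha1, ← hb1]
  simp only [rep, (chartAt ℂ x).left_inv ha2, (chartAt ℂ x).left_inv hb2, hab]

/-- descent to the local inverse -/
theorem diff_of_local {φ : X → ℂ} (hφ : Hol φ) {x : X} (hx : ¬ IsCrit φ x) {f : X → ℂ}
    (hf : Hol f) {g : ℂ → ℂ} (hg : ∀ᶠ y in 𝓝 x, f y = g (φ y)) :
    DifferentiableAt ℂ g (φ x) := by
  rw [isCrit_iff hφ] at hx
  have h1 := (rep_analyticAt hφ x).hasStrictDerivAt
  have h2 := h1.eventually_right_inverse hx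
  have h3 := h1.to_localInverse hx
  have h5 : (h1.localInverse _ _ _ hx) (rep φ x (chartAt ℂ x x)) = chartAt ℂ x x :=
    HasStrictFDerivAt.localInverse_apply_image ..
  rw [rep_apply] at h2 h3 h5
  have h6 : Tendsto (h1.localInverse _ _ _ hx) (𝓝 (φ x)) (𝓝 (chartAt ℂ x x)) := by
    have := h3.hasDerivAt.continuousAt
    rw [ContinuousAt, h5] at this
    exact this
  rw [eventually_chart] at hg
  have h7 := h6.eventually hg
  have h8 : (fun w => rep f x ((h1.localInverse _ _ _ hx) w)) =ᶠ[𝓝 (φ x)] g := by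
    filter_upwards [h7, h2] with w hw1 hw2
    have : rep f x (h1.localInverse _ _ _ hx w) = g (rep φ x (h1.localInverse _ _ _ hx w)) := hw1
    rw [this, hw2]
  have h9 : DifferentiableAt ℂ (fun w => rep f x ((h1.localInverse _ _ _ hx) w)) (φ x) := by
    apply DifferentiableAt.comp (φ x) (g := rep f x)
    · rw [h5]; exact (rep_analyticAt hf x).differentiableAt
    · exact h3.hasDerivAt.differentiableAt
  exact h8.differentiableAt_iff.mp h9

theorem Hol.const (c : ℂ) : Hol (fun _ : X => c) := by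
  unfold Hol
  exact mdifferentiable_const

variable [T2Space X] [ConnectedSpace X]

theorem TwoSheeted.not_const {φ : X → ℂ} {σ : X → X} (h : TwoSheeted φ σ) (x : X) :
    ¬ ∀ᶠ y in 𝓝 x, φ y = φ x := by
  intro hx
  have h1 := identity h.hol (Hol.const (φ x)) x hx
  have key : ∀ u : X, mult φ u = ⊤ := by
    intro u
    unfold mult
    rw [analyticOrderAt_eq_top]
    apply Eventually.of_forall
    intro z
    rw [h1, h1 u]; simp
  rcases h.two_zeros with ⟨u, v, -, -, h2, -⟩ | ⟨u, -, h2⟩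
  · rw [key] at h2; simp at h2
  · rw [key] at h2; exact absurd h2 (by decide)

theorem TwoSheeted.nhds_le {φ : X → ℂ} {σ : X → X} (h : TwoSheeted φ σ) (x : X) :
    𝓝 (φ x) ≤ map φ (𝓝 x) := by
  rcases (rep_analyticAt h.hol x).eventually_constant_or_nhds_le_map_nhds with h1 | h1
  · exfalso
    apply h.not_const x
    rw [eventually_chart]
    simpa [rep] using h1
  · rw [rep_apply] at h1
    rw [← map_symm_nhds x, map_map]
    exact h1

theorem TwoSheeted.isOpenMap {φ : X → ℂ} {σ : X → X} (h : TwoSheeted φ σ) : IsOpenMap φ :=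
  IsOpenMap.of_nhds_le h.nhds_le

theorem TwoSheeted.isOpen_range {φ : X → ℂ} {σ : X → X} (h : TwoSheeted φ σ) :
    IsOpen (range φ) := h.isOpenMap.isOpen_range

theorem exists_closedBall {z : ℂ} (hz : ‖z‖ < 1) :
    ∃ r > 0, Metric.closedBall z r ⊆ Metric.ball (0:ℂ) 1 := by
  refine ⟨(1 - ‖z‖) / 2, by linarith, ?_⟩
  intro w hw
  rw [mem_closedBall_iff_norm] at hw
  rw [mem_ball_zero_iff]
  calc ‖w‖ = ‖(w - z) + z‖ := by ring_nf
    _ ≤ ‖w - z‖ + ‖z‖ := norm_add_le _ _
    _ < 1 := by linarith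

/-- fibers near `z` are contained in neighbourhoods of the fiber -/
theorem TwoSheeted.tube {φ : X → ℂ} {σ : X → X} (h : TwoSheeted φ σ) {z : ℂ} (hz : ‖z‖ < 1)
    {O : Set X} (hO : IsOpen O) (hzO : ∀ x, φ x = z → x ∈ O) :
    ∀ᶠ w in 𝓝 z, ∀ x, φ x = w → x ∈ O := by
  obtain ⟨r, hr, hr2⟩ := exists_closedBall hz
  have hK : IsCompact (φ ⁻¹' (Metric.closedBall z r)) :=
    h.proper _ (isCompact_closedBall z r) hr2
  have hK2 : IsCompact (φ ⁻¹' (Metric.closedBall z r) \ O) := hK.diff hO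
  have hK3 : IsCompact (φ '' (φ ⁻¹' (Metric.closedBall z r) \ O)) := hK2.image h.hol.cont
  have h4 : z ∉ φ '' (φ ⁻¹' (Metric.closedBall z r) \ O) := by
    rintro ⟨x, hx, hx2⟩
    exact hx.2 (hzO x hx2)
  have h5 := hK3.isClosed.isOpen_compl.mem_nhds h4
  filter_upwards [h5, Metric.closedBall_mem_nhds z hr] with w hw1 hw2 x hx
  by_contra hxO
  apply hw1
  exact ⟨x, ⟨by rw [mem_preimage, hx]; exact hw2, hxO⟩, hx⟩

/-- A2: `φ` is onto the disc -/
theorem surj {φ : X → ℂ} {σ : X → X} (h : TwoSheeted φ σ) (z : ℂ) (hz : ‖z‖ < 1) :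
    ∃ x, φ x = z := by
  have h1 : IsPreconnected (Metric.ball (0:ℂ) 1) := (convex_ball (0:ℂ) 1).isPreconnected
  have h2 : (Metric.ball (0:ℂ) 1 ∩ range φ).Nonempty := by
    obtain ⟨x⟩ : Nonempty X := inferInstance
    exact ⟨φ x, by simpa using h.lt_one x, x, rfl⟩
  have h3 : Metric.ball (0:ℂ) 1 ⊆ range φ := by
    apply h1.subset_of_closure_inter_subset h.isOpen_range h2
    rintro w ⟨hw1, hw2⟩
    by_contra hw
    have h4 := h.tube (z := w) (by simpa using hw2) (O := ∅) isOpen_empty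
      (fun x hx => absurd ⟨x, hx⟩ hw)
    rw [mem_closure_iff_frequently] at hw1
    obtain ⟨u, ⟨x, hx⟩, hu2⟩ := (hw1.and_eventually h4).exists
    exact hu2 x hx
  exact h3 (by simpa using hz)

end RS

end Pool.Agent.H.MP_c9945a_an
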