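import Pool.Agent.H.MP_c9945a_an.DescentB

set_option autoImplicit false
set_option linter.unusedSectionVars false

namespace Pool.Agent.H.MP_c9945a_an

open Complex Set Filter Topology
open scoped Manifold ContDiff ComplexConjugate

/-- zeros of a nonzero holomorphic function on the disc are isolated -/
theorem B_isolated {B : ℂ → ℂ} (hB : DifferentiableOn ℂ B (Metric.ball 0 1))
    (hB0 : ∃ z ∈ Metric.ball (0:ℂ) 1, B z ≠ 0) {z : ℂ} (hz : z ∈ Metric.ball (0:ℂ) 1) :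
    ∀ᶠ w in 𝓝[≠] z, B w ≠ 0 := by
  have h1 : AnalyticOnNhd ℂ B (Metric.ball 0 1) := hB.analyticOnNhd Metric.isOpen_ball
  rcases (h1 z hz).eventually_eq_zero_or_eventually_ne_zero with h2 | h2
  · exfalso
    obtain ⟨u, hu, hu2⟩ := hB0
    apply hu2
    exact h1.eqOn_zero_of_preconnected_of_frequently_eq_zero
      (convex_ball (0:ℂ) 1).isPreconnected hz
      ((h2.filter_mono nhdsWithin_le_nhds).frequently) hu
  · exact h2

theorem zeros_countable {B : ℂ → ℂ} (hB : DifferentiableOn ℂ B (Metric.ball 0 1))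
    (hB0 : ∃ z ∈ Metric.ball (0:ℂ) 1, B z ≠ 0) :
    {z | z ∈ Metric.ball (0:ℂ) 1 ∧ B z = 0}.Countable := by
  have h1 : ∀ x ∈ {z | z ∈ Metric.ball (0:ℂ) 1 ∧ B z = 0},
      ({x} : Set ℂ) ∈ 𝓝[{z | z ∈ Metric.ball (0:ℂ) 1 ∧ B z = 0}] x := by
    intro x hx
    have h2 := B_isolated hB hB0 hx.1
    rw [eventually_nhdsWithin_iff] at h2
    rw [mem_nhdsWithin_iff_eventually]
    filter_upwards [h2] with y hy hy2
    by_contra hyx
    exact hy hyx hy2.2
  obtain ⟨t, -, ht2, ht3⟩ := TopologicalSpace.countable_cover_nhdsWithin h1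
  apply ht2.mono
  intro x hx
  have := ht3 hx
  simpa using this

theorem D'_preconnected {B : ℂ → ℂ} (hB : DifferentiableOn ℂ B (Metric.ball 0 1))
    (hB0 : ∃ z ∈ Metric.ball (0:ℂ) 1, B z ≠ 0) :
    IsPreconnected {z | z ∈ Metric.ball (0:ℂ) 1 ∧ B z ≠ 0} := by
  set e : OpenPartialHomeomorph ℂ ℂ := OpenPartialHomeomorph.univUnitBall with he
  have hc := zeros_countable hB hB0
  set C : Set ℂ := e ⁻¹' {z | z ∈ Metric.ball (0:ℂ) 1 ∧ B z = 0} with hC
  have hinj : Function.Injective e := by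
    intro a b hab
    exact e.injOn (by simp [he, OpenPartialHomeomorph.univUnitBall])
      (by simp [he, OpenPartialHomeomorph.univUnitBall]) hab
  have hC2 : C.Countable := hc.preimage hinj
  have h1 := hC2.isConnected_compl_of_one_lt_rank (E := ℂ) (by rw [Complex.rank_real_complex]; norm_num)
  have hcont : Continuous e := by
    rw [← continuousOn_univ]
    have := e.continuousOn
    simpa [he, OpenPartialHomeomorph.univUnitBall] using this
  have h2 := h1.isPreconnected.image e hcont.continuousOn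
  have h3 : {z | z ∈ Metric.ball (0:ℂ) 1 ∧ B z ≠ 0} = e '' Cᶜ := by
    ext z
    constructor
    · rintro ⟨hz1, hz2⟩
      have hz3 : z ∈ e.target := by simpa [he, OpenPartialHomeomorph.univUnitBall] using hz1
      refine ⟨e.symm z, ?_, e.right_inv hz3⟩
      intro hh
      have : e (e.symm z) ∈ {z | z ∈ Metric.ball (0:ℂ) 1 ∧ B z = 0} := hh
      rw [e.right_inv hz3] at this
      exact hz2 this.2
    · rintro ⟨w, hw, rfl⟩
      have hw2 : e w ∈ Metric.ball (0:ℂ) 1 := by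
        have := e.map_source (x := w) (by simp [he, OpenPartialHomeomorph.univUnitBall])
        simpa [he, OpenPartialHomeomorph.univUnitBall] using this
      refine ⟨hw2, fun h0 => hw ⟨hw2, h0⟩⟩
  rw [h3]
  exact h2

/-- near a double zero there are no three distinct points with the same value -/
theorem double_zero' {F : ℂ → ℂ} {z₀ c : ℂ} (hF : AnalyticAt ℂ F z₀)
    (h2 : analyticOrderAt (fun z => F z - c) z₀ = 2) :
    ∃ U ∈ 𝓝 z₀, ∀ x ∈ U, ∀ y ∈ U, ∀ z ∈ U, F x = F y → F x = F z → x = y ∨ x = z ∨ y = z := by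
  have h3 : AnalyticAt ℂ (fun z => F z - c) z₀ := hF.sub analyticAt_const
  obtain ⟨g, hg1, hg2, hg3⟩ := (h3.analyticOrderAt_eq_natCast (n := 2)).mp (by exact_mod_cast h2)
  obtain ⟨w, hw⟩ := IsAlgClosed.exists_pow_nat_eq (g z₀) (n := 2) (by norm_num)
  have hw0 : w ≠ 0 := by
    rintro rfl
    apply hg2
    rw [← hw]; simp
  set s : ℂ → ℂ := fun z => w * (g z / g z₀) ^ (1/2 : ℂ) with hs
  have hs1 : AnalyticAt ℂ s z₀ := by
    apply analyticAt_const.mul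
    apply AnalyticAt.cpow (hg1.div analyticAt_const hg2) analyticAt_const
    simp [hg2]
  have hgne : ∀ᶠ z in 𝓝 z₀, g z ≠ 0 := hg1.continuousAt.eventually_ne hg2
  have hs2 : ∀ᶠ z in 𝓝 z₀, s z ^ 2 = g z := by
    filter_upwards [hgne] with z hz
    simp only [hs]
    rw [mul_pow, ← Complex.cpow_nat_mul, hw]
    have : ((2:ℕ):ℂ) * (1/2 : ℂ) = 1 := by norm_num
    rw [this, Complex.cpow_one]
    field_simp
  have hs3 : s z₀ ≠ 0 := by
    simp only [hs]
    rw [div_self hg2, Complex.one_cpow, mul_one]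
    exact hw0
  have hh : AnalyticAt ℂ (fun z => (z - z₀) * s z) z₀ :=
    (analyticAt_id.sub analyticAt_const).mul hs1
  have hd : HasDerivAt (fun z => (z - z₀) * s z) (s z₀) z₀ := by
    have h4 := ((hasDerivAt_id z₀).sub_const z₀).fun_mul hs1.differentiableAt.hasDerivAt
    simpa using h4
  clear_value s
  have hd2 : deriv (fun z => (z - z₀) * s z) z₀ ≠ 0 := by rw [hd.deriv]; exact hs3
  have hl := hh.hasStrictDerivAt.eventually_left_inverse hd2
  refine ⟨_, hl.and (hg3.and hs2), ?_⟩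
  rintro x ⟨hx1, hx2, hx3⟩ y ⟨hy1, hy2, hy3⟩ z ⟨hz1, hz2, hz3⟩ hxy hxz
  have inj : ∀ a b : ℂ, ((hh.hasStrictDerivAt.localInverse _ _ _ hd2) ((a - z₀) * s a)) = a →
      ((hh.hasStrictDerivAt.localInverse _ _ _ hd2) ((b - z₀) * s b)) = b →
      (a - z₀) * s a = (b - z₀) * s b → a = b := by
    intro a b ha hb hab
    rw [← ha, ← hb, hab]
  have sq : ∀ a b : ℂ, F a - c = (a - z₀) ^ 2 • g a → F b - c = (b - z₀) ^ 2 • g b →
      s a ^ 2 = g a → s b ^ 2 = g b → F a = F b →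
      (a - z₀) * s a = (b - z₀) * s b ∨ (a - z₀) * s a = - ((b - z₀) * s b) := by
    intro a b ha hb ha2 hb2 hab
    apply sq_eq_sq_iff_eq_or_eq_neg.mp
    rw [mul_pow, mul_pow, ha2, hb2]
    rw [smul_eq_mul] at ha hb
    rw [← ha, ← hb, hab]
  rcases sq x y hx2 hy2 hx3 hy3 hxy with h5 | h5
  · left; exact inj x y hx1 hy1 h5
  · rcases sq x z hx2 hz2 hx3 hz3 hxz with h6 | h6
    · right; left; exact inj x z hx1 hz1 h6
    · right; right
      apply inj y z hy1 hz1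
      have : (y - z₀) * s y = - ((x - z₀) * s x) := by rw [h5]; ring
      rw [this, h6]; ring

section RS
variable {X : Type} [TopologicalSpace X] [ChartedSpace ℂ X] [IsManifold 𝓘(ℂ) ω X]

theorem not_crit_of_mult {φ : X → ℂ} (hφ : Hol φ) {x : X} (hx : mult φ x = 1) : ¬ IsCrit φ x := by
  rw [isCrit_iff hφ]
  unfold mult at hx
  have h3 : AnalyticAt ℂ (fun z => rep φ x z - φ x) (chartAt ℂ x x) :=
    (rep_analyticAt hφ x).sub analyticAt_const
  obtain ⟨g, hg1, hg2, hg3⟩ := (h3.analyticOrderAt_eq_natCast (n := 1)).mp (by exact_mod_cast hx)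
  have hd : HasDerivAt (fun z => (z - chartAt ℂ x x) * g z + φ x) (g (chartAt ℂ x x))
      (chartAt ℂ x x) := by
    have h4 := (((hasDerivAt_id (chartAt ℂ x x)).sub_const (chartAt ℂ x x)).fun_mul
      hg1.differentiableAt.hasDerivAt).add_const (φ x)
    simpa using h4
  have he : rep φ x =ᶠ[𝓝 (chartAt ℂ x x)] (fun z => (z - chartAt ℂ x x) * g z + φ x) := by
    filter_upwards [hg3] with z hz
    rw [pow_one, smul_eq_mul] at hz
    rw [← hz]; ring
  rw [he.deriv_eq, hd.deriv]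
  exact hg2

variable [T2Space X] [ConnectedSpace X]

/-- three distinct points in the fiber -/
def Three (φ : X → ℂ) (z : ℂ) : Prop :=
  ∃ x₁ x₂ x₃, x₁ ≠ x₂ ∧ x₁ ≠ x₃ ∧ x₂ ≠ x₃ ∧ φ x₁ = z ∧ φ x₂ = z ∧ φ x₃ = z

theorem TwoSheeted.isOpen_three {φ : X → ℂ} {σ : X → X} (h : TwoSheeted φ σ) :
    IsOpen {z | Three φ z} := by
  rw [isOpen_iff_mem_nhds]
  rintro z ⟨x₁, x₂, x₃, h12, h13, h23, h1, h2, h3⟩
  obtain ⟨U1, V1, hU1, hV1, hx1, hy1, hd1⟩ := t2_separation h12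
  obtain ⟨U2, V2, hU2, hV2, hx2, hy2, hd2⟩ := t2_separation h13
  obtain ⟨U3, V3, hU3, hV3, hx3, hy3, hd3⟩ := t2_separation h23
  have n1 : φ '' (U1 ∩ U2) ∈ 𝓝 z := by
    rw [← h1]; exact h.isOpenMap.image_mem_nhds ((hU1.inter hU2).mem_nhds ⟨hx1, hx2⟩)
  have n2 : φ '' (V1 ∩ U3) ∈ 𝓝 z := by
    rw [← h2]; exact h.isOpenMap.image_mem_nhds ((hV1.inter hU3).mem_nhds ⟨hy1, hx3⟩)
  have n3 : φ '' (V2 ∩ V3) ∈ 𝓝 z := by
    rw [← h3]; exact h.isOpenMap.image_mem_nhds ((hV2.inter hV3).mem_nhds ⟨hy2, hy3⟩)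
  filter_upwards [n1, n2, n3] with w hw1 hw2 hw3
  obtain ⟨a, ⟨ha1, ha2⟩, ha⟩ := hw1
  obtain ⟨b, ⟨hb1, hb2⟩, hb⟩ := hw2
  obtain ⟨c, ⟨hc1, hc2⟩, hc⟩ := hw3
  refine ⟨a, b, c, ?_, ?_, ?_, ha, hb, hc⟩
  · rintro rfl; exact disjoint_left.mp hd1 ha1 hb1
  · rintro rfl; exact disjoint_left.mp hd2 ha2 hc1
  · rintro rfl; exact disjoint_left.mp hd3 hb2 hc2

theorem TwoSheeted.open_not_three {φ : X → ℂ} {σ : X → X} (h : TwoSheeted φ σ) {z : ℂ}
    (hz : ‖z‖ < 1) (hnc : ∀ x, φ x = z → ¬ IsCrit φ x) (h3 : ¬ Three φ z) :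
    ∀ᶠ w in 𝓝 z, ¬ Three φ w := by
  -- the fiber is contained in `{a, b}`
  obtain ⟨a, ha⟩ := surj h z hz
  have h4 : ∃ b, φ b = z ∧ ∀ x, φ x = z → x = a ∨ x = b := by
    by_cases h5 : ∀ x, φ x = z → x = a
    · exact ⟨a, ha, fun x hx => Or.inl (h5 x hx)⟩
    · push Not at h5
      obtain ⟨b, hb, hba⟩ := h5
      refine ⟨b, hb, fun x hx => ?_⟩
      by_contra hcon
      push Not at hcon
      exact h3 ⟨a, b, x, hba.symm, hcon.1.symm, hcon.2.symm, ha, hb, hx⟩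
  obtain ⟨b, hb, hab⟩ := h4
  obtain ⟨U, hU1, hU2, hU3⟩ := locinj h.hol (hnc a ha)
  obtain ⟨V, hV1, hV2, hV3⟩ := locinj h.hol (hnc b hb)
  have h6 := h.tube hz (hU2.union hV2) (by
    intro x hx
    rcases hab x hx with rfl | rfl
    · left; exact mem_of_mem_nhds hU1
    · right; exact mem_of_mem_nhds hV1)
  filter_upwards [h6] with w hw
  rintro ⟨x₁, x₂, x₃, h12, h13, h23, h1, h2, h3⟩
  rcases hw x₁ h1 with k1 | k1 <;> rcases hw x₂ h2 with k2 | k2 <;> rcases hw x₃ h3 with k3 | k3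
  · exact h12 (hU3 k1 k2 (by rw [h1, h2]))
  · exact h12 (hU3 k1 k2 (by rw [h1, h2]))
  · exact h13 (hU3 k1 k3 (by rw [h1, h3]))
  · exact h23 (hV3 k2 k3 (by rw [h2, h3]))
  · exact h23 (hU3 k2 k3 (by rw [h2, h3]))
  · exact h13 (hV3 k1 k3 (by rw [h1, h3]))
  · exact h12 (hV3 k1 k2 (by rw [h1, h2]))
  · exact h12 (hV3 k1 k2 (by rw [h1, h2]))

theorem TwoSheeted.not_three {φ : X → ℂ} {σ : X → X} (h : TwoSheeted φ σ)
    {B : ℂ → ℂ} (hB : DifferentiableOn ℂ B (Metric.ball 0 1))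
    (hB0 : ∃ z ∈ Metric.ball (0:ℂ) 1, B z ≠ 0)
    (hcrit : ∀ z ∈ Metric.ball (0:ℂ) 1, B z = 0 ↔ ∃ x, φ x = z ∧ IsCrit φ x)
    {z : ℂ} (hz : z ∈ Metric.ball (0:ℂ) 1) (hBz : B z ≠ 0) : ¬ Three φ z := by
  have hconn := D'_preconnected hB hB0
  have hnc : ∀ z ∈ Metric.ball (0:ℂ) 1, B z ≠ 0 → ∀ x, φ x = z → ¬ IsCrit φ x := by
    intro z hz hBz x hx hcr
    exact hBz ((hcrit z hz).mpr ⟨x, hx, hcr⟩)
  -- a good point
  have h0 : ∃ z ∈ Metric.ball (0:ℂ) 1, B z ≠ 0 ∧ ¬ Three φ z := by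
    rcases h.two_zeros with ⟨x, y, hxy, hfib, hm1, hm2⟩ | ⟨x, hfib, hm⟩
    · refine ⟨0, by simp, ?_, ?_⟩
      · intro hB00
        obtain ⟨u, hu1, hu2⟩ := (hcrit 0 (by simp)).mp hB00
        have hu3 : u ∈ φ ⁻¹' {0} := hu1
        rw [hfib] at hu3
        rcases hu3 with rfl | hu3
        · exact not_crit_of_mult h.hol hm1 hu2
        · rw [mem_singleton_iff] at hu3
          subst hu3
          exact not_crit_of_mult h.hol hm2 hu2
      · rintro ⟨x₁, x₂, x₃, h12, h13, h23, h1, h2, h3⟩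
        have k1 : x₁ ∈ φ ⁻¹' {0} := h1
        have k2 : x₂ ∈ φ ⁻¹' {0} := h2
        have k3 : x₃ ∈ φ ⁻¹' {0} := h3
        rw [hfib] at k1 k2 k3
        simp only [mem_insert_iff, mem_singleton_iff] at k1 k2 k3
        rcases k1 with k1 | k1 <;> rcases k2 with k2 | k2 <;> rcases k3 with k3 | k3 <;>
          simp_all
    · have hx0 : φ x = 0 := by
        have : x ∈ φ ⁻¹' {0} := by rw [hfib]; rfl
        exact this
      unfold mult at hm
      obtain ⟨U, hU1, hU2⟩ := double_zero' (rep_analyticAt h.hol x) hm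
      rw [← map_chart_nhds x] at hU1
      have hs : ∀ᶠ y in 𝓝 x, y ∈ (chartAt ℂ x).source :=
        (chartAt ℂ x).open_source.mem_nhds (mem_chart_source ℂ x)
      have hU3 : ∀ᶠ y in 𝓝 x, chartAt ℂ x y ∈ U ∧ y ∈ (chartAt ℂ x).source :=
        (show ∀ᶠ y in 𝓝 x, chartAt ℂ x y ∈ U from mem_map.mp hU1).and hs
      obtain ⟨O, hO1, hO2, hO3⟩ := eventually_nhds_iff.mp hU3
      have h7 := h.tube (z := 0) (by simp) hO2 (by
        intro y hy
        have : y ∈ φ ⁻¹' {0} := hy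
        rw [hfib] at this
        rw [mem_singleton_iff] at this
        rw [this]; exact hO3)
      have h8 := (B_isolated hB hB0 (z := 0) (by simp)).and (h7.filter_mono nhdsWithin_le_nhds)
      have h9 : ∀ᶠ w in 𝓝[≠] (0:ℂ), w ∈ Metric.ball (0:ℂ) 1 :=
        (Metric.ball_mem_nhds (0:ℂ) one_pos : _) |> fun hh => nhdsWithin_le_nhds hh
      obtain ⟨w, ⟨hw1, hw2⟩, hw3⟩ := (h8.and h9).exists
      refine ⟨w, hw3, hw1, ?_⟩
      rintro ⟨x₁, x₂, x₃, h12, h13, h23, h1, h2, h3⟩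
      obtain ⟨a1, b1⟩ := hO1 x₁ (hw2 x₁ h1)
      obtain ⟨a2, b2⟩ := hO1 x₂ (hw2 x₂ h2)
      obtain ⟨a3, b3⟩ := hO1 x₃ (hw2 x₃ h3)
      have e1 : rep φ x (chartAt ℂ x x₁) = w := by simp [rep, (chartAt ℂ x).left_inv b1, h1]
      have e2 : rep φ x (chartAt ℂ x x₂) = w := by simp [rep, (chartAt ℂ x).left_inv b2, h2]
      have e3 : rep φ x (chartAt ℂ x x₃) = w := by simp [rep, (chartAt ℂ x).left_inv b3, h3]
      rcases hU2 _ a1 _ a2 _ a3 (by rw [e1, e2]) (by rw [e1, e3]) with h | h | h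
      · exact h12 ((chartAt ℂ x).injOn b1 b2 h)
      · exact h13 ((chartAt ℂ x).injOn b1 b3 h)
      · exact h23 ((chartAt ℂ x).injOn b2 b3 h)
  obtain ⟨z1, hz1, hz2, hz3⟩ := h0
  intro hthree
  obtain ⟨w, hw1, hw2, hw3⟩ := hconn {z | Three φ z} (interior {z | ¬ Three φ z})
    h.isOpen_three isOpen_interior (by
      rintro u ⟨hu1, hu2⟩
      by_cases hu3 : Three φ u
      · left; exact hu3
      · right
        rw [mem_interior_iff_mem_nhds]
        exact h.open_not_three (by simpa using hu1) (hnc u hu1 hu2) hu3)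
    ⟨z, ⟨hz, hBz⟩, hthree⟩
    ⟨z1, ⟨hz1, hz2⟩, by
      rw [mem_interior_iff_mem_nhds]
      exact h.open_not_three (by simpa using hz1) (hnc z1 hz1 hz2) hz3⟩
  exact (interior_subset hw3) hw2

end RS

end Pool.Agent.H.MP_c9945a_an
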