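import Pool.Agent.H.MP_c9945a_an.DiscB

set_option autoImplicit false
set_option linter.unusedSectionVars false

namespace Pool.Agent.H.MP_c9945a_an

open Complex Set Filter Topology
open scoped Manifold ContDiff ComplexConjugate

theorem mul_conj_norm (x : ℂ) : x * conj x = ((‖x‖ ^ 2 : ℝ) : ℂ) := by
  rw [Complex.mul_conj, Complex.normSq_eq_norm_sq]

theorem alg1 {p q : ℂ} {δ : ℝ} (hp : ‖p‖ ≤ 1) (hq : ‖q‖ ≤ 1) (hδ : 1 - ‖p * q‖ ≤ δ) :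
    ‖(p - q) ^ 2 * conj (p * q) + ((‖p - q‖ ^ 2 : ℝ) : ℂ)‖ ≤ 8 * δ := by
  have key : (p - q) ^ 2 * conj (p * q) + ((‖p - q‖ ^ 2 : ℝ) : ℂ)
      = (((‖p‖ ^ 2 - 1 : ℝ) : ℂ) * (p * conj q) + ((‖q‖ ^ 2 - 1 : ℝ) : ℂ) * (q * conj p)) +
        (((‖p‖ ^ 2 : ℝ) : ℂ) * ((1 - ‖q‖ ^ 2 : ℝ) : ℂ) +
          ((‖q‖ ^ 2 : ℝ) : ℂ) * ((1 - ‖p‖ ^ 2 : ℝ) : ℂ)) := by
    rw [← mul_conj_norm (p - q), Complex.ofReal_sub, Complex.ofReal_sub, Complex.ofReal_sub,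
      Complex.ofReal_sub, Complex.ofReal_one, ← mul_conj_norm p, ← mul_conj_norm q]
    simp only [map_sub, map_mul]
    ring
  rw [norm_mul] at hδ
  have h1 : 1 - ‖p‖ ≤ δ := by nlinarith [norm_nonneg p, norm_nonneg q]
  have h2 : 1 - ‖q‖ ≤ δ := by nlinarith [norm_nonneg p, norm_nonneg q]
  have h3 : 1 - ‖p‖ ^ 2 ≤ 2 * δ := by nlinarith [norm_nonneg p]
  have h4 : 1 - ‖q‖ ^ 2 ≤ 2 * δ := by nlinarith [norm_nonneg q]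
  have h5 : 0 ≤ 1 - ‖p‖ ^ 2 := by nlinarith [norm_nonneg p]
  have h6 : 0 ≤ 1 - ‖q‖ ^ 2 := by nlinarith [norm_nonneg q]
  have hpq : ‖p‖ * ‖q‖ ≤ 1 := by nlinarith [norm_nonneg p, norm_nonneg q]
  rw [key]
  have n1 : ‖((‖p‖ ^ 2 - 1 : ℝ) : ℂ) * (p * conj q)‖ ≤ 2 * δ := by
    rw [norm_mul, norm_mul, Complex.norm_conj, Complex.norm_real, Real.norm_eq_abs,
      abs_sub_comm, abs_of_nonneg h5]
    nlinarith [mul_nonneg (norm_nonneg p) (norm_nonneg q)]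
  have n2 : ‖((‖q‖ ^ 2 - 1 : ℝ) : ℂ) * (q * conj p)‖ ≤ 2 * δ := by
    rw [norm_mul, norm_mul, Complex.norm_conj, Complex.norm_real, Real.norm_eq_abs,
      abs_sub_comm, abs_of_nonneg h6]
    nlinarith [mul_nonneg (norm_nonneg p) (norm_nonneg q)]
  have n3 : ‖((‖p‖ ^ 2 : ℝ) : ℂ) * ((1 - ‖q‖ ^ 2 : ℝ) : ℂ)‖ ≤ 2 * δ := by
    rw [norm_mul, Complex.norm_real, Complex.norm_real, Real.norm_eq_abs, Real.norm_eq_abs,
      abs_of_nonneg h6, abs_of_nonneg (by positivity)]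
    nlinarith [norm_nonneg p]
  have n4 : ‖((‖q‖ ^ 2 : ℝ) : ℂ) * ((1 - ‖p‖ ^ 2 : ℝ) : ℂ)‖ ≤ 2 * δ := by
    rw [norm_mul, Complex.norm_real, Complex.norm_real, Real.norm_eq_abs, Real.norm_eq_abs,
      abs_of_nonneg h5, abs_of_nonneg (by positivity)]
    nlinarith [norm_nonneg q]
  refine (norm_add_le _ _).trans ?_
  have t1 := norm_add_le (((‖p‖ ^ 2 - 1 : ℝ) : ℂ) * (p * conj q))
    (((‖q‖ ^ 2 - 1 : ℝ) : ℂ) * (q * conj p))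
  have t2 := norm_add_le (((‖p‖ ^ 2 : ℝ) : ℂ) * ((1 - ‖q‖ ^ 2 : ℝ) : ℂ))
    (((‖q‖ ^ 2 : ℝ) : ℂ) * ((1 - ‖p‖ ^ 2 : ℝ) : ℂ))
  linarith

/-- consequences for `a ± b w` -/
theorem alg2 {a b B w : ℂ} {δ : ℝ} (hw : w ^ 2 = B) (h1 : ‖a + b * w‖ ≤ 1)
    (h2 : ‖a + b * (-w)‖ ≤ 1) (hδ : 1 - ‖a ^ 2 - b ^ 2 * B‖ ≤ δ) :
    ‖b ^ 2 * B * conj (a ^ 2 - b ^ 2 * B) - ((-(‖b‖ ^ 2 * ‖B‖) : ℝ) : ℂ)‖ ≤ 2 * δ ∧
      ‖b ^ 2 * B‖ ≤ 1 ∧ ‖a ^ 2 - b ^ 2 * B‖ ≤ 1 := by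
  have e1 : (a + b * w) * (a + b * (-w)) = a ^ 2 - b ^ 2 * B := by rw [← hw]; ring
  have e2 : ((a + b * w) - (a + b * (-w))) ^ 2 = 4 * (b ^ 2 * B) := by rw [← hw]; ring
  have e3 : ‖(a + b * w) - (a + b * (-w))‖ ^ 2 = 4 * (‖b‖ ^ 2 * ‖B‖) := by
    rw [← norm_pow, e2, norm_mul, norm_mul, norm_pow]; norm_num
  have h3 := alg1 h1 h2 (δ := δ) (by rw [e1]; exact hδ)
  rw [e1, e2, e3] at h3
  refine ⟨?_, ?_, ?_⟩
  · have e4 : 4 * (b ^ 2 * B) * conj (a ^ 2 - b ^ 2 * B) + ((4 * (‖b‖ ^ 2 * ‖B‖) : ℝ) : ℂ)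
        = 4 * (b ^ 2 * B * conj (a ^ 2 - b ^ 2 * B) - ((-(‖b‖ ^ 2 * ‖B‖) : ℝ) : ℂ)) := by
      push_cast; ring
    rw [e4, norm_mul] at h3
    have : ‖(4:ℂ)‖ = 4 := by norm_num
    rw [this] at h3
    linarith
  · have h5 : ‖(a + b * w) - (a + b * (-w))‖ ≤ 2 := by
      have := norm_sub_le (a + b * w) (a + b * (-w))
      linarith
    have h6 : ‖(a + b * w) - (a + b * (-w))‖ ^ 2 ≤ 4 := by
      nlinarith [norm_nonneg ((a + b * w) - (a + b * (-w)))]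
    rw [norm_mul, norm_pow]
    rw [e3] at h6
    linarith
  · rw [← e1, norm_mul]
    nlinarith [norm_nonneg (a + b * w), norm_nonneg (a + b * (-w))]

theorem alg3uv {u v : ℂ} {u' v' δ : ℝ} (h1 : ‖u - (u' : ℂ)‖ ≤ 2 * δ) (h2 : ‖v - (v' : ℂ)‖ ≤ 2 * δ)
    (h3 : ‖u'‖ ≤ 1) (h4 : ‖v‖ ≤ 1) : ‖u * v - ((u' * v' : ℝ) : ℂ)‖ ≤ 4 * δ := by
  have e : u * v - ((u' * v' : ℝ) : ℂ) = (u - (u' : ℂ)) * v + (u' : ℂ) * (v - (v' : ℂ)) := by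
    push_cast; ring
  rw [e]
  refine (norm_add_le _ _).trans ?_
  rw [norm_mul, norm_mul, Complex.norm_real]
  nlinarith [norm_nonneg (u - (u' : ℂ)), norm_nonneg v, norm_nonneg u', norm_nonneg (v - (v' : ℂ))]

theorem alg3core {u v F G h B : ℂ} {u' v' δ : ℝ}
    (e1 : ((‖h‖ ^ 2 : ℝ) : ℂ) * (u * v) = F * ((‖B‖ ^ 2 : ℝ) : ℂ) + G * ((1 - ‖B‖ ^ 2 : ℝ) : ℂ))
    (huv : ‖u * v - ((u' * v' : ℝ) : ℂ)‖ ≤ 4 * δ) (hFn : ‖F‖ ≤ 4) (hGn : ‖G‖ ≤ 2)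
    (hh2 : ‖h‖ ≤ 2) (hB : ‖B‖ ≤ 1) : |F.im| ≤ 16 * δ + 12 * (1 - ‖B‖) := by
  have hmain : F = ((‖h‖ ^ 2 * (u' * v') : ℝ) : ℂ) +
      (((‖h‖ ^ 2 : ℝ) : ℂ) * (u * v - ((u' * v' : ℝ) : ℂ)) + (F - G) * ((1 - ‖B‖ ^ 2 : ℝ) : ℂ)) := by
    push_cast at e1 ⊢
    linear_combination -e1
  have him : F.im = (((‖h‖ ^ 2 : ℝ) : ℂ) * (u * v - ((u' * v' : ℝ) : ℂ))
      + (F - G) * ((1 - ‖B‖ ^ 2 : ℝ) : ℂ)).im := by
    conv_lhs => rw [hmain]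
    rw [Complex.add_im, Complex.ofReal_im, zero_add]
  rw [him]
  refine (Complex.abs_im_le_norm _).trans ?_
  refine (norm_add_le _ _).trans ?_
  rw [norm_mul, norm_mul, Complex.norm_real, Complex.norm_real, Real.norm_eq_abs, Real.norm_eq_abs,
    abs_of_nonneg (by positivity : (0:ℝ) ≤ ‖h‖ ^ 2)]
  have hB2 : 0 ≤ 1 - ‖B‖ ^ 2 := by nlinarith [norm_nonneg B]
  have hB3 : 1 - ‖B‖ ^ 2 ≤ 2 * (1 - ‖B‖) := by nlinarith [norm_nonneg B]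
  rw [abs_of_nonneg hB2]
  have s1 : ‖F - G‖ ≤ 6 := (norm_sub_le _ _).trans (by linarith)
  have s2 : ‖h‖ ^ 2 ≤ 4 := by nlinarith [norm_nonneg h]
  have s3 : ‖h‖ ^ 2 * ‖u * v - ((u' * v' : ℝ) : ℂ)‖ ≤ 4 * (4 * δ) :=
    mul_le_mul s2 huv (norm_nonneg _) (by norm_num)
  have s4 : ‖F - G‖ * (1 - ‖B‖ ^ 2) ≤ 6 * (2 * (1 - ‖B‖)) :=
    mul_le_mul s1 hB3 hB2 (by norm_num)
  linarith

theorem alg3F {b d h B : ℂ} (hb : ‖b‖ ≤ 1) (hd : ‖d‖ ≤ 1) (hh2 : ‖h‖ ≤ 2) (hB : ‖B‖ ≤ 1) :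
    ‖-(b * d * h) ^ 2 * B‖ ≤ 4 := by
  rw [norm_mul, norm_neg, norm_pow, norm_mul, norm_mul]
  have t1 : ‖b‖ * ‖d‖ ≤ 1 := mul_le_one₀ hb (norm_nonneg _) hd
  have t2 : ‖b‖ * ‖d‖ * ‖h‖ ≤ 1 * 2 := mul_le_mul t1 hh2 (norm_nonneg _) (by norm_num)
  have t4 : (‖b‖ * ‖d‖ * ‖h‖) ^ 2 ≤ (1 * 2) ^ 2 := pow_le_pow_left₀ (by positivity) t2 2
  calc (‖b‖ * ‖d‖ * ‖h‖) ^ 2 * ‖B‖ ≤ (1 * 2) ^ 2 * 1 :=
        mul_le_mul t4 hB (norm_nonneg _) (by norm_num)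
    _ = 4 := by norm_num

theorem alg3G {b d h B ξ : ℂ} (hb : ‖b ^ 2 * B‖ ≤ 1) (hd : ‖d ^ 2 * B‖ ≤ 1) (hh2 : ‖h‖ ≤ 2)
    (hξ : ‖ξ‖ ≤ 1) :
    ‖b ^ 2 * d ^ 2 * B ^ 2 * h * conj ξ ^ 2‖ ≤ 2 := by
  have e : b ^ 2 * d ^ 2 * B ^ 2 * h * conj ξ ^ 2
      = (b ^ 2 * B) * (d ^ 2 * B) * h * conj ξ ^ 2 := by ring
  rw [e, norm_mul, norm_mul, norm_mul (b ^ 2 * B), norm_pow (conj ξ), Complex.norm_conj]
  have t1 : ‖b ^ 2 * B‖ * ‖d ^ 2 * B‖ ≤ 1 := mul_le_one₀ hb (norm_nonneg _) hd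
  have t2 : ‖b ^ 2 * B‖ * ‖d ^ 2 * B‖ * ‖h‖ ≤ 1 * 2 :=
    mul_le_mul t1 hh2 (norm_nonneg _) (by norm_num)
  have t4 : ‖ξ‖ ^ 2 ≤ 1 := pow_le_one₀ (norm_nonneg _) hξ
  calc ‖b ^ 2 * B‖ * ‖d ^ 2 * B‖ * ‖h‖ * ‖ξ‖ ^ 2 ≤ (1 * 2) * 1 :=
        mul_le_mul t2 t4 (by positivity) (by norm_num)
    _ = 2 := by norm_num

theorem alg3e {b d h B b1 b2 ξ : ℂ} (hh : h = 1 - conj ξ ^ 2 * B)
    (hconj : conj b1 * conj b2 * conj h = conj ξ ^ 2 - conj B) :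
    ((‖h‖ ^ 2 : ℝ) : ℂ) * ((b ^ 2 * B * conj b1) * (d ^ 2 * B * conj b2))
      = (-(b * d * h) ^ 2 * B) * ((‖B‖ ^ 2 : ℝ) : ℂ) +
        (b ^ 2 * d ^ 2 * B ^ 2 * h * conj ξ ^ 2) * ((1 - ‖B‖ ^ 2 : ℝ) : ℂ) := by
  rw [← mul_conj_norm h, Complex.ofReal_sub, ← mul_conj_norm B, Complex.ofReal_one]
  have e2 : h * conj h * ((b ^ 2 * B * conj b1) * (d ^ 2 * B * conj b2))
      = b ^ 2 * d ^ 2 * B ^ 2 * h * (conj b1 * conj b2 * conj h) := by ring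
  rw [e2, hconj]
  have e4 : conj ξ ^ 2 - conj B = - conj B * h + conj ξ ^ 2 * (1 - B * conj B) := by
    rw [hh]; ring
  rw [e4]
  ring

theorem alg3 {a b c d B w ξ : ℂ} (hw : w ^ 2 = B) (h1 : ‖a + b * w‖ ≤ 1)
    (h2 : ‖a + b * (-w)‖ ≤ 1) (h3 : ‖c + d * w‖ ≤ 1)
    (h4 : ‖c + d * (-w)‖ ≤ 1) (hb : ‖b‖ ≤ 1) (hd : ‖d‖ ≤ 1) (hB : ‖B‖ ≤ 1) (hξ : ‖ξ‖ < 1)
    (hN : (a ^ 2 - b ^ 2 * B) * (c ^ 2 - d ^ 2 * B) = (ξ ^ 2 - B) / (1 - conj ξ ^ 2 * B)) :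
    |(-(b * d * (1 - conj ξ ^ 2 * B)) ^ 2 * B).im| ≤
      16 * (1 - ‖(ξ ^ 2 - B) / (1 - conj ξ ^ 2 * B)‖) + 12 * (1 - ‖B‖) := by
  obtain ⟨β, hβ⟩ : ∃ β : ℂ, β = (ξ ^ 2 - B) / (1 - conj ξ ^ 2 * B) := ⟨_, rfl⟩
  obtain ⟨b1, hb1⟩ : ∃ b1 : ℂ, b1 = a ^ 2 - b ^ 2 * B := ⟨_, rfl⟩
  obtain ⟨b2, hb2⟩ : ∃ b2 : ℂ, b2 = c ^ 2 - d ^ 2 * B := ⟨_, rfl⟩
  obtain ⟨h, hh⟩ : ∃ h : ℂ, h = 1 - conj ξ ^ 2 * B := ⟨_, rfl⟩
  have hξB : ‖conj ξ ^ 2 * B‖ < 1 := by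
    rw [norm_mul, norm_pow, Complex.norm_conj]
    have t1 : ‖ξ‖ ^ 2 < 1 := pow_lt_one₀ (norm_nonneg _) hξ two_ne_zero
    calc ‖ξ‖ ^ 2 * ‖B‖ ≤ ‖ξ‖ ^ 2 * 1 := by gcongr
      _ < 1 := by linarith
  have hh0 : h ≠ 0 := by
    intro h0
    have : conj ξ ^ 2 * B = 1 := by rw [hh] at h0; exact (sub_eq_zero.mp h0).symm
    rw [this] at hξB
    simp at hξB
  have hh2 : ‖h‖ ≤ 2 := by
    have := norm_sub_le (1:ℂ) (conj ξ ^ 2 * B)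
    rw [norm_one] at this
    rw [hh]; linarith
  have hb1n : ‖b1‖ ≤ 1 := by rw [hb1]; exact (alg2 hw h1 h2 le_rfl).2.2
  have hb2n : ‖b2‖ ≤ 1 := by rw [hb2]; exact (alg2 hw h3 h4 le_rfl).2.2
  rw [← hb1, ← hb2, ← hβ] at hN
  have hβn : ‖β‖ = ‖b1‖ * ‖b2‖ := by rw [← hN, norm_mul]
  have hδ1 : 1 - ‖b1‖ ≤ 1 - ‖β‖ := by rw [hβn]; nlinarith [norm_nonneg b1, norm_nonneg b2]
  have hδ2 : 1 - ‖b2‖ ≤ 1 - ‖β‖ := by rw [hβn]; nlinarith [norm_nonneg b1, norm_nonneg b2]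
  obtain ⟨k1, k2, -⟩ := alg2 (δ := 1 - ‖β‖) hw h1 h2 (by rw [← hb1]; exact hδ1)
  obtain ⟨k3, k4, -⟩ := alg2 (δ := 1 - ‖β‖) hw h3 h4 (by rw [← hb2]; exact hδ2)
  rw [← hb1] at k1
  rw [← hb2] at k3
  have hconj : conj b1 * conj b2 * conj h = conj ξ ^ 2 - conj B := by
    rw [← map_mul, ← map_mul, hN, hβ, ← hh, div_mul_cancel₀ _ hh0]
    simp
  rw [← hβ, ← hh]
  have hun : ‖(-(‖b‖ ^ 2 * ‖B‖) : ℝ)‖ ≤ 1 := by
    rw [norm_neg, Real.norm_eq_abs, abs_of_nonneg (by positivity)]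
    rw [norm_mul, norm_pow] at k2; exact k2
  have hvn : ‖d ^ 2 * B * conj b2‖ ≤ 1 := by
    rw [norm_mul, Complex.norm_conj]
    exact mul_le_one₀ k4 (norm_nonneg _) hb2n
  exact alg3core (alg3e hh hconj) (alg3uv k1 k3 hun hvn) (alg3F hb hd hh2 hB)
    (alg3G k2 k4 hh2 hξ.le) hh2 hB

/-- a Blaschke product does not vanish identically -/
theorem IsBlaschke.exists_ne {B : ℂ → ℂ} (hB : IsBlaschke B) :
    ∃ z ∈ Metric.ball (0:ℂ) 1, B z ≠ 0 := by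
  by_contra hcon
  push Not at hcon
  have h1 := circle_mean hB
  have h2 : Tendsto (fun r => Real.circleAverage (fun z => 1 - ‖B z‖) 0 r) (𝓝[<] 1) (𝓝 1) := by
    have : (fun _ : ℝ => (1:ℝ)) =ᶠ[𝓝[<] 1] fun r => Real.circleAverage (fun z => 1 - ‖B z‖) 0 r := by
      have e1 : ∀ᶠ r : ℝ in 𝓝[<] 1, r < 1 := eventually_mem_nhdsWithin
      have e2 : ∀ᶠ r : ℝ in 𝓝[<] 1, 0 < r := nhdsWithin_le_nhds (lt_mem_nhds (by norm_num))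
      filter_upwards [e1, e2] with r hr1 hr2
      have : Real.circleAverage (fun z => 1 - ‖B z‖) 0 r = Real.circleAverage (fun _ => (1:ℝ)) 0 r := by
        apply Real.circleAverage_congr_sphere
        intro w hw
        rw [mem_sphere_zero_iff_norm, abs_of_pos hr2] at hw
        simp only
        rw [hcon w (by simpa [hw] using hr1)]
        simp
      rw [this, Real.circleAverage_const]
    exact tendsto_const_nhds.congr' this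
  exact zero_ne_one (tendsto_nhds_unique h1 h2)

/-- integral domain property on the disc -/
theorem disc_eq_zero_or {f g : ℂ → ℂ} (hf : DifferentiableOn ℂ f (Metric.ball 0 1))
    (hg : DifferentiableOn ℂ g (Metric.ball 0 1))
    (h : ∀ z ∈ Metric.ball (0:ℂ) 1, f z * g z = 0) :
    (∀ z ∈ Metric.ball (0:ℂ) 1, f z = 0) ∨ (∀ z ∈ Metric.ball (0:ℂ) 1, g z = 0) := by
  by_cases h0 : ∀ z ∈ Metric.ball (0:ℂ) 1, f z = 0
  · left; exact h0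
  · right
    push Not at h0
    obtain ⟨z, hz, hz2⟩ := h0
    have hnz := Metric.isOpen_ball.mem_nhds hz
    have h1 : ∀ᶠ w in 𝓝 z, g w = 0 := by
      filter_upwards [(hf.differentiableAt hnz).continuousAt.eventually_ne hz2, hnz] with w hw hw2
      exact (mul_eq_zero.mp (h w hw2)).resolve_left hw
    have han : AnalyticOnNhd ℂ g (Metric.ball 0 1) := hg.analyticOnNhd Metric.isOpen_ball
    intro w hw
    exact han.eqOn_zero_of_preconnected_of_frequently_eq_zero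
      (convex_ball (0:ℂ) 1).isPreconnected hz
      ((h1.filter_mono nhdsWithin_le_nhds).frequently) hw

/-- B6: the main lemma on the disc -/
theorem disc_main {B : ℂ → ℂ} (hB : IsBlaschke B) (hBz : ∃ z ∈ Metric.ball (0:ℂ) 1, B z = 0)
    {ξ : ℂ} (hξ0 : 0 < ‖ξ‖) (hξ1 : ‖ξ‖ < 1)
    (hβ : IsBlaschke (fun z => (ξ ^ 2 - B z) / (1 - conj ξ ^ 2 * B z)))
    (a b c d : ℂ → ℂ) (ha : DifferentiableOn ℂ a (Metric.ball 0 1))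
    (hb : DifferentiableOn ℂ b (Metric.ball 0 1)) (hc : DifferentiableOn ℂ c (Metric.ball 0 1))
    (hd : DifferentiableOn ℂ d (Metric.ball 0 1))
    (h1 : ∀ z ∈ Metric.ball (0:ℂ) 1, ∀ w, w ^ 2 = B z → ‖a z + b z * w‖ ≤ 1)
    (h2 : ∀ z ∈ Metric.ball (0:ℂ) 1, ∀ w, w ^ 2 = B z → ‖c z + d z * w‖ ≤ 1)
    (hN : ∀ z ∈ Metric.ball (0:ℂ) 1, (a z ^ 2 - b z ^ 2 * B z) * (c z ^ 2 - d z ^ 2 * B z)
      = (ξ ^ 2 - B z) / (1 - conj ξ ^ 2 * B z)) :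
    (∀ z ∈ Metric.ball (0:ℂ) 1, b z = 0) ∨ (∀ z ∈ Metric.ball (0:ℂ) 1, d z = 0) := by
  have hBd := differentiableOn hB
  have hB1 := norm_le_one hB
  have hroot : ∀ z, ∃ w : ℂ, w ^ 2 = B z := fun z =>
    IsAlgClosed.exists_pow_nat_eq (B z) (n := 2) (by norm_num)
  have hbound : ∀ (a b : ℂ → ℂ), DifferentiableOn ℂ b (Metric.ball 0 1) →
      (∀ z ∈ Metric.ball (0:ℂ) 1, ∀ w, w ^ 2 = B z → ‖a z + b z * w‖ ≤ 1) →
      ∀ z ∈ Metric.ball (0:ℂ) 1, ‖b z‖ ≤ 1 := by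
    intro a b hb h1 z hz
    have h3 := div_bound hB (fun z => b z ^ 2) (hb.fun_pow 2) 1 (by
      intro z hz
      obtain ⟨w, hw⟩ := hroot z
      have := (alg2 hw (h1 z hz w hw) (h1 z hz (-w) (by rw [neg_sq]; exact hw)) le_rfl).2.1
      rwa [mul_comm]) z hz
    rw [norm_pow] at h3
    nlinarith [norm_nonneg (b z)]
  have hbn := hbound a b hb h1
  have hdn := hbound c d hd h2
  have hden : ∀ z ∈ Metric.ball (0:ℂ) 1, 1 - conj ξ ^ 2 * B z ≠ 0 := by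
    intro z hz h0
    have h3 : conj ξ ^ 2 * B z = 1 := (sub_eq_zero.mp h0).symm
    have h4 : ‖conj ξ ^ 2 * B z‖ = 1 := by rw [h3]; simp
    rw [norm_mul, norm_pow, Complex.norm_conj] at h4
    nlinarith [norm_nonneg ξ, norm_nonneg (B z), hB1 z hz]
  set F : ℂ → ℂ := fun z => -(b z * d z * (1 - conj ξ ^ 2 * B z)) ^ 2 * B z with hF
  have hFd : DifferentiableOn ℂ F (Metric.ball 0 1) := by
    apply DifferentiableOn.fun_mul _ hBd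
    apply DifferentiableOn.fun_neg
    apply DifferentiableOn.fun_pow
    exact (hb.fun_mul hd).fun_mul (hBd.const_mul (conj ξ ^ 2) |>.const_sub 1)
  have hFn : ∀ z ∈ Metric.ball (0:ℂ) 1, ‖F z‖ ≤ 4 := by
    intro z hz
    simp only [hF]
    have hh2 : ‖1 - conj ξ ^ 2 * B z‖ ≤ 2 := by
      have h5 := norm_sub_le (1:ℂ) (conj ξ ^ 2 * B z)
      rw [norm_one] at h5
      have h6 : ‖conj ξ ^ 2 * B z‖ ≤ 1 := by
        rw [norm_mul, norm_pow, Complex.norm_conj]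
        exact mul_le_one₀ (pow_le_one₀ (norm_nonneg _) hξ1.le) (norm_nonneg _) (hB1 z hz)
      linarith
    exact alg3F (hbn z hz) (hdn z hz) hh2 (hB1 z hz)
  have him : Tendsto (fun r => Real.circleAverage (fun z => |(F z).im|) 0 r) (𝓝[<] 1) (𝓝 0) := by
    have m1 := circle_mean hB
    have m2 := circle_mean hβ
    have m3 := (m2.const_mul 16).add (m1.const_mul 12)
    rw [mul_zero, mul_zero, add_zero] at m3
    have e1 : ∀ᶠ r : ℝ in 𝓝[<] 1, r < 1 := eventually_mem_nhdsWithin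
    have e2 : ∀ᶠ r : ℝ in 𝓝[<] 1, 0 < r := nhdsWithin_le_nhds (lt_mem_nhds (by norm_num))
    apply squeeze_zero' _ _ m3
    · apply Eventually.of_forall
      intro r
      exact Real.circleAverage_nonneg_of_nonneg (fun _ _ => abs_nonneg _)
    · filter_upwards [e1, e2] with r hr1 hr2
      have c1 : ContinuousOn (fun z => 1 - ‖B z‖) (Metric.ball (0:ℂ) 1) :=
        continuousOn_const.sub hBd.continuousOn.norm
      have c2 : ContinuousOn (fun z => 1 - ‖(ξ ^ 2 - B z) / (1 - conj ξ ^ 2 * B z)‖)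
          (Metric.ball (0:ℂ) 1) :=
        continuousOn_const.sub (differentiableOn hβ).continuousOn.norm
      have i1 := circInt hr2 hr1 c1
      have i2 := circInt hr2 hr1 c2
      have i3 : CircleIntegrable (fun z => (16:ℝ) • (1 - ‖(ξ ^ 2 - B z) / (1 - conj ξ ^ 2 * B z)‖)) 0 r :=
        circInt hr2 hr1 (continuousOn_const.fun_smul c2)
      have i4 : CircleIntegrable (fun z => (12:ℝ) • (1 - ‖B z‖)) 0 r :=
        circInt hr2 hr1 (continuousOn_const.fun_smul c1)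
      rw [← smul_eq_mul, ← smul_eq_mul, ← Real.circleAverage_fun_smul,
        ← Real.circleAverage_fun_smul, ← Real.circleAverage_fun_add i3 i4]
      apply Real.circleAverage_mono
      · apply circInt hr2 hr1
        exact (Complex.continuous_im.comp_continuousOn hFd.continuousOn).abs
      · exact circInt hr2 hr1 ((continuousOn_const.fun_smul c2).fun_add (continuousOn_const.fun_smul c1))
      · intro z hz
        rw [mem_sphere_zero_iff_norm, abs_of_pos hr2] at hz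
        have hzb : z ∈ Metric.ball (0:ℂ) 1 := by simpa [hz] using hr1
        obtain ⟨w, hw⟩ := hroot z
        have hw' : (-w) ^ 2 = B z := by rw [neg_sq]; exact hw
        exact alg3 hw (h1 z hzb w hw) (h1 z hzb (-w) hw') (h2 z hzb w hw) (h2 z hzb (-w) hw')
          (hbn z hzb) (hdn z hzb) (hB1 z hzb) hξ1 (hN z hzb)
  have hconst := const_of_real F hFd 4 hFn him
  obtain ⟨z₀, hz₀, hz₀'⟩ := hBz
  have hF0 : ∀ z ∈ Metric.ball (0:ℂ) 1, F z = 0 := by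
    intro z hz
    rw [hconst z hz, ← hconst z₀ hz₀]
    simp [hF, hz₀']
  have hprod : ∀ z ∈ Metric.ball (0:ℂ) 1, (b z * d z) * B z = 0 := by
    intro z hz
    have h3 := hF0 z hz
    simp only [hF] at h3
    rcases mul_eq_zero.mp h3 with h4 | h4
    · rw [neg_eq_zero] at h4
      have h5 := pow_eq_zero_iff (two_ne_zero) |>.mp h4
      rcases mul_eq_zero.mp h5 with h6 | h6
      · rw [h6, zero_mul]
      · exact absurd h6 (hden z hz)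
    · rw [h4, mul_zero]
  rcases disc_eq_zero_or (hb.fun_mul hd) hBd hprod with h5 | h5
  · exact disc_eq_zero_or hb hd h5
  · obtain ⟨z, hz, hz2⟩ := hB.exists_ne
    exact absurd (h5 z hz) hz2

end Pool.Agent.H.MP_c9945a_an
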