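import Pool.Agent.H.MP_c9945a_an.Defs

set_option autoImplicit false
set_option linter.unusedSectionVars false

namespace Pool.Agent.H.MP_c9945a_an

open Complex Set Filter Topology
open scoped Manifold ContDiff ComplexConjugate

/-- finite Blaschke product -/
noncomputable def fb {ι : Type} (a : ι → ℂ) (s : Finset ι) (z : ℂ) : ℂ := ∏ i ∈ s, bf (a i) z

theorem den_ne {a z : ℂ} (ha : ‖a‖ < 1) (hz : ‖z‖ ≤ 1) : 1 - conj a * z ≠ 0 := by
  intro h
  have h1 : conj a * z = 1 := (sub_eq_zero.mp h).symm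
  have h2 : ‖conj a * z‖ = 1 := by rw [h1]; simp
  rw [norm_mul, Complex.norm_conj] at h2
  nlinarith [norm_nonneg a, norm_nonneg z]

theorem den_lower {a z : ℂ} (ha : ‖a‖ < 1) : 1 - ‖z‖ ≤ ‖1 - conj a * z‖ := by
  have h1 : ‖(1:ℂ)‖ - ‖conj a * z‖ ≤ ‖1 - conj a * z‖ := norm_sub_norm_le _ _
  rw [norm_mul, Complex.norm_conj, norm_one] at h1
  nlinarith [norm_nonneg a, norm_nonneg z]

theorem den_lower' {a z : ℂ} (hz : ‖z‖ ≤ 1) : 1 - ‖a‖ ≤ ‖1 - conj a * z‖ := by
  have h1 : ‖(1:ℂ)‖ - ‖conj a * z‖ ≤ ‖1 - conj a * z‖ := norm_sub_norm_le _ _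
  rw [norm_mul, Complex.norm_conj, norm_one] at h1
  nlinarith [norm_nonneg a, norm_nonneg z]

theorem bf_sub_one {a z : ℂ} (ha : ‖a‖ < 1) (hz : ‖z‖ < 1) :
    ‖bf a z - 1‖ ≤ (1 - ‖a‖) * (2 / (1 - ‖z‖)) := by
  unfold bf
  have hz1 : 0 < 1 - ‖z‖ := by linarith
  split_ifs with h
  · subst h
    rw [norm_zero, sub_zero, one_mul]
    have h1 : ‖z - 1‖ ≤ ‖z‖ + ‖(1:ℂ)‖ := norm_sub_le _ _
    rw [norm_one] at h1
    rw [le_div_iff₀ hz1]
    nlinarith [norm_nonneg z, norm_nonneg (z - 1)]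
  · have hd := den_ne ha hz.le
    have hn : (‖a‖ : ℂ) ^ 2 = a * conj a := by
      rw [Complex.mul_conj, Complex.normSq_eq_norm_sq]; push_cast; rfl
    have key : ((‖a‖ : ℂ) / a) * ((a - z) / (1 - conj a * z)) - 1
        = - ((1 - ‖a‖ : ℝ) : ℂ) * ((1 + (‖a‖ : ℂ) / a * z) / (1 - conj a * z)) := by
      obtain ⟨D, hD⟩ : ∃ D, D = 1 - conj a * z := ⟨_, rfl⟩
      rw [← hD] at hd ⊢
      push_cast
      field_simp
      rw [hD]
      have e : (‖a‖ : ℂ) ^ 2 * z = a * conj a * z := by rw [hn]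
      linear_combination -e
    rw [key, norm_mul, norm_neg, Complex.norm_real, Real.norm_eq_abs, abs_of_pos (by linarith)]
    apply mul_le_mul_of_nonneg_left _ (by linarith)
    rw [norm_div]
    have h2 : ‖1 + (‖a‖ : ℂ) / a * z‖ ≤ 2 := by
      calc ‖1 + (‖a‖ : ℂ) / a * z‖ ≤ ‖(1:ℂ)‖ + ‖(‖a‖ : ℂ) / a * z‖ := norm_add_le _ _
        _ = 1 + ‖z‖ := by
          rw [norm_one, norm_mul, norm_div, Complex.norm_real, norm_norm, div_self (norm_ne_zero_iff.mpr h), one_mul]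
        _ ≤ 2 := by linarith
    have h3 := den_lower (z := z) ha
    exact div_le_div₀ (by norm_num) h2 hz1 h3

theorem bf_normSq {a z : ℂ} (ha : ‖a‖ < 1) (hz : ‖z‖ ≤ 1) :
    1 - ‖bf a z‖ ^ 2 = (1 - ‖a‖ ^ 2) * (1 - ‖z‖ ^ 2) / ‖1 - conj a * z‖ ^ 2 := by
  unfold bf
  split_ifs with h
  · subst h; simp
  · have hd := den_ne ha hz
    have hd2 : ‖1 - conj a * z‖ ≠ 0 := norm_ne_zero_iff.mpr hd
    rw [norm_mul, norm_div, norm_div, Complex.norm_real, norm_norm,
      div_self (norm_ne_zero_iff.mpr h), one_mul, div_pow]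
    rw [eq_div_iff (by positivity), sub_mul, div_mul_cancel₀ _ (by positivity)]
    rw [← Complex.normSq_eq_norm_sq, ← Complex.normSq_eq_norm_sq, ← Complex.normSq_eq_norm_sq,
      ← Complex.normSq_eq_norm_sq]
    simp only [Complex.normSq_apply, Complex.sub_re, Complex.sub_im, Complex.mul_re, Complex.mul_im,
      Complex.conj_re, Complex.conj_im, Complex.one_re, Complex.one_im]
    ring

theorem bf_norm_le {a z : ℂ} (ha : ‖a‖ < 1) (hz : ‖z‖ ≤ 1) : ‖bf a z‖ ≤ 1 := by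
  have h1 := bf_normSq ha hz
  have h2 : 0 ≤ (1 - ‖a‖ ^ 2) * (1 - ‖z‖ ^ 2) / ‖1 - conj a * z‖ ^ 2 := by
    apply div_nonneg _ (by positivity)
    apply mul_nonneg
    · nlinarith [norm_nonneg a]
    · nlinarith [norm_nonneg z]
  have h3 : ‖bf a z‖ ^ 2 ≤ 1 := by linarith
  nlinarith [norm_nonneg (bf a z)]

theorem bf_diff {a : ℂ} (ha : ‖a‖ < 1) {z : ℂ} (hz : ‖z‖ < 1) : DifferentiableAt ℂ (bf a) z := by
  have hd := den_ne ha hz.le
  unfold bf
  split_ifs with h
  · exact differentiableAt_id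
  · fun_prop (disch := exact hd)

theorem bf_zero_iff {a : ℂ} (ha : ‖a‖ < 1) {z : ℂ} (hz : ‖z‖ < 1) : bf a z = 0 ↔ a = z := by
  unfold bf
  have hd := den_ne ha hz.le
  split_ifs with h
  · subst h; exact eq_comm
  · have : (‖a‖ : ℂ) ≠ 0 := by
      rw [Complex.ofReal_ne_zero]; exact norm_ne_zero_iff.mpr h
    simp [h, hd, sub_eq_zero]

theorem bf_deriv {a : ℂ} (ha : ‖a‖ < 1) : deriv (bf a) a ≠ 0 := by
  have hd := den_ne (z := a) ha ha.le
  unfold bf
  split_ifs with h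
  · subst h
    rw [deriv_id'']; exact one_ne_zero
  · have h1 : HasDerivAt (fun z => (‖a‖ : ℂ) / a * ((a - z) / (1 - conj a * z)))
        ((‖a‖ : ℂ) / a * (((-1) * (1 - conj a * a) - (a - a) * (-(conj a * 1))) / (1 - conj a * a) ^ 2)) a := by
      apply HasDerivAt.const_mul
      exact ((hasDerivAt_id' a).const_sub a).fun_div
        (((hasDerivAt_id' a).const_mul (conj a)).const_sub 1) hd
    rw [h1.deriv]
    have : (‖a‖ : ℂ) ≠ 0 := by
      rw [Complex.ofReal_ne_zero]; exact norm_ne_zero_iff.mpr h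
    have hd3 : ((‖a‖ : ℂ) / a * (((-1) * (1 - conj a * a) - (a - a) * (-(conj a * 1))) / (1 - conj a * a) ^ 2))
      = - ((‖a‖ : ℂ) / a / (1 - conj a * a)) := by
      clear h1
      generalize 1 - conj a * a = D at hd ⊢
      rw [sub_self, zero_mul, sub_zero]
      field_simp
    rw [hd3]
    exact neg_ne_zero.mpr (div_ne_zero (div_ne_zero this h) hd)

section prod

variable {κ : Type} {a : κ → ℂ}

theorem summable_bf (ha : ∀ i, ‖a i‖ < 1) (hs : Summable fun i => 1 - ‖a i‖) {z : ℂ}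
    (hz : ‖z‖ < 1) : Summable fun i => ‖bf (a i) z - 1‖ :=
  Summable.of_nonneg_of_le (fun i => norm_nonneg _) (fun i => bf_sub_one (ha i) hz)
    (hs.mul_right _)

theorem multipliable_bf (ha : ∀ i, ‖a i‖ < 1) (hs : Summable fun i => 1 - ‖a i‖) {z : ℂ}
    (hz : ‖z‖ < 1) : Multipliable fun i => bf (a i) z := by
  have h1 := multipliable_one_add_of_summable (summable_bf ha hs hz)
  simpa using h1

theorem tprod_bf_norm_le (ha : ∀ i, ‖a i‖ < 1) (hs : Summable fun i => 1 - ‖a i‖) {z : ℂ}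
    (hz : ‖z‖ < 1) : ‖∏' i, bf (a i) z‖ ≤ 1 := by
  have h1 := (multipliable_bf ha hs hz).hasProd
  have h2 : Tendsto (fun s : Finset κ => ‖∏ i ∈ s, bf (a i) z‖) atTop (𝓝 ‖∏' i, bf (a i) z‖) :=
    (continuous_norm.tendsto _).comp h1
  apply le_of_tendsto h2
  apply Eventually.of_forall
  intro s
  rw [norm_prod]
  exact Finset.prod_le_one (fun i _ => norm_nonneg _) (fun i _ => bf_norm_le (ha i) hz.le)

theorem tprod_bf_sub_one (ha : ∀ i, ‖a i‖ < 1) (hs : Summable fun i => 1 - ‖a i‖) {z : ℂ}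
    (hz : ‖z‖ < 1) : ‖∏' i, bf (a i) z - 1‖ ≤ Real.exp (∑' i, ‖bf (a i) z - 1‖) - 1 := by
  have h1 := (multipliable_bf ha hs hz).hasProd
  have h2 : Tendsto (fun s : Finset κ => ‖∏ i ∈ s, bf (a i) z - 1‖) atTop
      (𝓝 ‖∏' i, bf (a i) z - 1‖) := by
    have : Tendsto (fun s : Finset κ => ∏ i ∈ s, bf (a i) z - 1) atTop
      (𝓝 (∏' i, bf (a i) z - 1)) := Tendsto.sub_const h1 1
    exact (continuous_norm.tendsto _).comp this
  apply le_of_tendsto h2
  apply Eventually.of_forall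
  intro s
  have h3 := Finset.norm_prod_one_add_sub_one_le s (fun i => bf (a i) z - 1)
  simp only [add_sub_cancel] at h3
  refine h3.trans ?_
  gcongr
  exact (summable_bf ha hs hz).sum_le_tsum s (fun i _ => norm_nonneg _)

theorem tprod_bf_diff (ha : ∀ i, ‖a i‖ < 1) (hs : Summable fun i => 1 - ‖a i‖) :
    DifferentiableOn ℂ (fun z => ∏' i, bf (a i) z) (Metric.ball 0 1) := by
  have key : HasProdLocallyUniformlyOn (fun i z => 1 + (bf (a i) z - 1))
      (fun z => ∏' i, (1 + (bf (a i) z - 1))) (Metric.ball (0:ℂ) 1) := by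
    apply hasProdLocallyUniformlyOn_of_forall_compact Metric.isOpen_ball
    intro K hK hcK
    rcases K.eq_empty_or_nonempty with hN | hN
    · simpa [hasProdUniformlyOn_iff_tendstoUniformlyOn, hN] using tendstoUniformlyOn_empty
    · obtain ⟨q₀, hq₀, hq1, HB⟩ := hcK.exists_sSup_image_eq_and_ge hN
        (show ContinuousOn (fun q : ℂ ↦ ‖q‖) K by fun_prop)
      have hq2 : ‖q₀‖ < 1 := by simpa using hK hq₀
      apply (hs.mul_right (2 / (1 - ‖q₀‖))).hasProdUniformlyOn_one_add hcK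
      · apply Eventually.of_forall
        intro i x hx
        have hx1 : ‖x‖ < 1 := by simpa using hK hx
        refine (bf_sub_one (ha i) hx1).trans ?_
        have := ha i
        have hx2 := HB x hx
        have h1 : 0 < 1 - ‖q₀‖ := by linarith
        gcongr
      · intro i
        apply ContinuousOn.sub _ continuousOn_const
        intro x hx
        exact (bf_diff (ha i) (by simpa using hK hx)).continuousAt.continuousWithinAt
  have h2 := key.differentiableOn (.of_forall fun s ↦ by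
    simp only [add_sub_cancel]
    have : (fun x => ∏ i ∈ s, bf (a i) x) = ∏ i ∈ s, (fun x => bf (a i) x) := by
      ext x; simp
    rw [this]
    exact DifferentiableOn.finsetProd (fun i _ => fun x hx =>
      (bf_diff (ha i) (by simpa using hx)).differentiableWithinAt)) Metric.isOpen_ball
  simpa using h2

end prod

/-- B1: tails of Blaschke products -/
theorem tail {ι : Type} {a : ι → ℂ} {f : ℂ → ℂ} (h : IsBlaschkeWith a f) :
    ∃ g : Finset ι → ℂ → ℂ, (∀ s, DifferentiableOn ℂ (g s) (Metric.ball 0 1)) ∧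
      (∀ s, ∀ z ∈ Metric.ball (0:ℂ) 1, ‖g s z‖ ≤ 1) ∧
      (∀ s, ∀ z ∈ Metric.ball (0:ℂ) 1, f z = fb a s z * g s z) ∧
      (∀ z ∈ Metric.ball (0:ℂ) 1, Tendsto (fun s => ‖g s z‖) atTop (𝓝 1)) := by
  obtain ⟨ha, hs, c, g, hc, hg⟩ := h
  have ha' : ∀ s : Finset ι, ∀ i : {i // i ∉ s}, ‖a i‖ < 1 := fun s i => ha i
  have hs' : ∀ s : Finset ι, Summable fun i : {i // i ∉ s} => 1 - ‖a i‖ := fun s =>
    hs.subtype {i | i ∉ s}
  refine ⟨fun s z => c * ∏' i : {i // i ∉ s}, bf (a i) z, ?_, ?_, ?_, ?_⟩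
  · intro s
    exact (tprod_bf_diff (ha' s) (hs' s)).const_mul c
  · intro s z hz
    rw [norm_mul, hc, one_mul]
    exact tprod_bf_norm_le (ha' s) (hs' s) (by simpa using hz)
  · intro s z hz
    have hz1 : ‖z‖ < 1 := by simpa using hz
    obtain ⟨h1, h2⟩ := hg z hz1
    rw [h2]
    have h3 : HasProd (fun i : {i // i ∈ s} => bf (a i) z) (fb a s z) := by
      have := hasProd_fintype (fun i : {i // i ∈ s} => bf (a i) z)
      rw [Finset.prod_coe_sort s (fun i => bf (a i) z)] at this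
      exact this
    have h4 : HasProd (fun i : {i // i ∉ s} => bf (a i) z)
      (∏' i : {i // i ∉ s}, bf (a i) z) := (multipliable_bf (ha' s) (hs' s) hz1).hasProd
    have h5 : HasProd (fun i => bf (a i) z) (fb a s z * ∏' i : {i // i ∉ s}, bf (a i) z) :=
      HasProd.mul_isCompl (s := {i | i ∈ s}) (t := {i | i ∉ s}) isCompl_compl h3 h4
    rw [h1.unique h5]
    ring
  · intro z hz
    have hz1 : ‖z‖ < 1 := by simpa using hz
    have h1 : Tendsto (fun s : Finset ι => ∏' i : {i // i ∉ s}, bf (a i) z) atTop (𝓝 1) := by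
      rw [tendsto_iff_norm_sub_tendsto_zero]
      have h2 : Tendsto (fun s : Finset ι =>
          Real.exp (∑' i : {i // i ∉ s}, ‖bf (a i) z - 1‖) - 1) atTop (𝓝 0) := by
        have h3 := tendsto_tsum_compl_atTop_zero (fun i => ‖bf (a i) z - 1‖)
        have h4 := ((Real.continuous_exp.tendsto 0).comp h3).sub_const 1
        simpa using h4
      exact squeeze_zero (fun _ => norm_nonneg _)
        (fun s => tprod_bf_sub_one (ha' s) (hs' s) hz1) h2
    have h2 := (h1.const_mul c).norm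
    simpa [hc] using h2

theorem differentiableOn {f : ℂ → ℂ} (h : IsBlaschke f) :
    DifferentiableOn ℂ f (Metric.ball 0 1) := by
  obtain ⟨ι, a, h⟩ := h
  obtain ⟨g, h1, h2, h3, h4⟩ := tail h
  refine (h1 ∅).congr ?_
  intro z hz
  rw [h3 ∅ z hz]; simp [fb]

theorem norm_le_one {f : ℂ → ℂ} (h : IsBlaschke f) (z : ℂ) (hz : z ∈ Metric.ball (0:ℂ) 1) :
    ‖f z‖ ≤ 1 := by
  obtain ⟨ι, a, h⟩ := h
  obtain ⟨g, h1, h2, h3, h4⟩ := tail h
  have := h3 ∅ z hz
  simp only [fb, Finset.prod_empty, one_mul] at this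
  rw [this]
  exact h2 ∅ z hz

/-- zeros of a Blaschke product -/
theorem zero_iff {ι : Type} {a : ι → ℂ} {f : ℂ → ℂ} (h : IsBlaschkeWith a f) (z : ℂ)
    (hz : z ∈ Metric.ball (0:ℂ) 1) : f z = 0 ↔ ∃ i, a i = z := by
  classical
  have ha := h.1
  obtain ⟨g, h1, h2, h3, h4⟩ := tail h
  have hz1 : ‖z‖ < 1 := by simpa using hz
  constructor
  · intro h0
    by_contra hcon
    push Not at hcon
    obtain ⟨s, hs⟩ := ((h4 z hz).eventually (lt_mem_nhds (show (0:ℝ) < 1 by norm_num))).exists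
    have h5 := h3 s z hz
    rw [h0] at h5
    rcases mul_eq_zero.mp h5.symm with h6 | h6
    · unfold fb at h6
      obtain ⟨i, hi, hi2⟩ := Finset.prod_eq_zero_iff.mp h6
      exact hcon i ((bf_zero_iff (ha i) hz1).mp hi2)
    · rw [h6] at hs; simp at hs
  · rintro ⟨i, rfl⟩
    rw [h3 {i} _ hz]
    simp only [fb, Finset.prod_singleton]
    rw [(bf_zero_iff (ha i) (ha i)).mpr rfl, zero_mul]

/-- simple zeros -/
theorem deriv_ne_zero {ι : Type} {a : ι → ℂ} {f : ℂ → ℂ} (h : IsBlaschkeWith a f)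
    (hinj : Function.Injective a) (z : ℂ) (hz : z ∈ Metric.ball (0:ℂ) 1) (h0 : f z = 0) :
    deriv f z ≠ 0 := by
  classical
  obtain ⟨i, rfl⟩ := (zero_iff h z hz).mp h0
  have ha := h.1
  obtain ⟨g, h1, h2, h3, h4⟩ := tail h
  have hz1 : ‖a i‖ < 1 := ha i
  obtain ⟨s, hs, his⟩ := (((h4 _ hz).eventually (lt_mem_nhds (show (0:ℝ) < 1 by norm_num))).and
    (eventually_ge_atTop {i})).exists
  have his2 : i ∈ s := by simpa using his
  have hnz := Metric.isOpen_ball.mem_nhds hz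
  set k : ℂ → ℂ := fun w => (∏ j ∈ s.erase i, bf (a j) w) * g s w with hk
  have hev : f =ᶠ[𝓝 (a i)] fun w => bf (a i) w * k w := by
    filter_upwards [hnz] with w hw
    rw [h3 s w hw]
    simp only [hk, fb]
    rw [← Finset.mul_prod_erase s (fun j => bf (a j) w) his2]
    ring
  have hkd : DifferentiableAt ℂ k (a i) := by
    apply DifferentiableAt.mul
    · have : ∀ j ∈ s.erase i, DifferentiableAt ℂ (fun w => bf (a j) w) (a i) :=
        fun j _ => bf_diff (ha j) hz1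
      exact DifferentiableAt.fun_finsetProd this
    · exact (h1 s).differentiableAt hnz
  have hk0 : k (a i) ≠ 0 := by
    simp only [hk]
    apply mul_ne_zero
    · rw [Finset.prod_ne_zero_iff]
      intro j hj hj2
      have := (bf_zero_iff (ha j) hz1).mp hj2
      exact (Finset.ne_of_mem_erase hj) (hinj this)
    · intro h5; rw [h5] at hs; simp at hs
  have hd := (bf_diff (ha i) hz1).hasDerivAt.fun_mul hkd.hasDerivAt
  rw [hev.deriv_eq, hd.deriv, (bf_zero_iff (ha i) (ha i)).mpr rfl, zero_mul, add_zero]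
  exact mul_ne_zero (bf_deriv (ha i)) hk0

end Pool.Agent.H.MP_c9945a_an
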