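import Pool.Agent.H.MP_c9945a_an.DiscA

set_option autoImplicit false
set_option linter.unusedSectionVars false

namespace Pool.Agent.H.MP_c9945a_an

open Complex Set Filter Topology
open scoped Manifold ContDiff ComplexConjugate

theorem bf_tendsto {a : ℂ} (ha : ‖a‖ < 1) :
    Tendsto (fun w : ℂ => ‖bf a w‖) (comap norm (𝓝[<] (1:ℝ))) (𝓝 1) := by
  have h1 : Tendsto (fun w : ℂ => 1 - (1 - ‖a‖ ^ 2) * (1 - ‖w‖ ^ 2) / (1 - ‖a‖) ^ 2)
      (comap norm (𝓝[<] (1:ℝ))) (𝓝 1) := by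
    have h2 : Tendsto (fun t : ℝ => 1 - (1 - ‖a‖ ^ 2) * (1 - t ^ 2) / (1 - ‖a‖) ^ 2) (𝓝[<] 1)
        (𝓝 (1 - (1 - ‖a‖ ^ 2) * (1 - 1 ^ 2) / (1 - ‖a‖) ^ 2)) := by
      apply Tendsto.mono_left _ nhdsWithin_le_nhds
      apply ContinuousAt.tendsto
      fun_prop
    have h3 := h2.comp (tendsto_comap (f := (norm : ℂ → ℝ)) (x := 𝓝[<] (1:ℝ)))
    simpa [Function.comp_def] using h3
  have hev : ∀ᶠ w : ℂ in comap norm (𝓝[<] (1:ℝ)), ‖w‖ < 1 := by
    have : ∀ᶠ t : ℝ in 𝓝[<] (1:ℝ), t < 1 := eventually_mem_nhdsWithin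
    exact this.comap _
  apply tendsto_of_tendsto_of_tendsto_of_le_of_le' h1 tendsto_const_nhds
  · filter_upwards [hev] with w hw
    have h2 := bf_normSq ha hw.le
    have h3 := bf_norm_le ha hw.le
    have h4 := den_lower' (a := a) hw.le
    have h5 : (1 - ‖a‖ ^ 2) * (1 - ‖w‖ ^ 2) / ‖1 - conj a * w‖ ^ 2
        ≤ (1 - ‖a‖ ^ 2) * (1 - ‖w‖ ^ 2) / (1 - ‖a‖) ^ 2 := by
      have : 0 < 1 - ‖a‖ := by linarith
      have h6 : 0 ≤ (1 - ‖a‖ ^ 2) * (1 - ‖w‖ ^ 2) := by
        apply mul_nonneg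
        · nlinarith [norm_nonneg a]
        · nlinarith [norm_nonneg w]
      gcongr
    nlinarith [norm_nonneg (bf a w)]
  · filter_upwards [hev] with w hw
    exact bf_norm_le ha hw.le

theorem fb_tendsto {ι : Type} {a : ι → ℂ} (ha : ∀ i, ‖a i‖ < 1) (s : Finset ι) :
    Tendsto (fun w : ℂ => ‖fb a s w‖) (comap norm (𝓝[<] (1:ℝ))) (𝓝 1) := by
  have h1 : Tendsto (fun w : ℂ => ∏ i ∈ s, ‖bf (a i) w‖) (comap norm (𝓝[<] (1:ℝ)))
      (𝓝 (∏ i ∈ s, (1:ℝ))) := tendsto_finsetProd s (fun i _ => bf_tendsto (ha i))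
  simpa [fb, norm_prod] using h1

theorem fb_near {ι : Type} {a : ι → ℂ} (ha : ∀ i, ‖a i‖ < 1) (s : Finset ι) {η : ℝ} (hη : η < 1) :
    ∃ r₀ < (1:ℝ), ∀ w : ℂ, r₀ < ‖w‖ → ‖w‖ < 1 → η < ‖fb a s w‖ := by
  have h1 := (fb_tendsto ha s).eventually (lt_mem_nhds hη)
  rw [eventually_comap] at h1
  rw [eventually_nhdsWithin_iff, Metric.eventually_nhds_iff] at h1
  obtain ⟨ε, hε, h2⟩ := h1
  refine ⟨1 - ε, by linarith, ?_⟩
  intro w hw1 hw2
  apply h2 (y := ‖w‖) _ hw2 w rfl
  rw [Real.dist_eq, abs_lt]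
  constructor <;> linarith

theorem fb_norm_le {ι : Type} {a : ι → ℂ} (ha : ∀ i, ‖a i‖ < 1) (s : Finset ι) {w : ℂ}
    (hw : ‖w‖ ≤ 1) : ‖fb a s w‖ ≤ 1 := by
  unfold fb
  rw [norm_prod]
  exact Finset.prod_le_one (fun i _ => norm_nonneg _) (fun i _ => bf_norm_le (ha i) hw)

theorem diffContOnCl_of {k : ℂ → ℂ} (hk : DifferentiableOn ℂ k (Metric.ball 0 1)) {r : ℝ}
    (hr0 : 0 < r) (hr : r < 1) : DiffContOnCl ℂ k (Metric.ball 0 r) := by
  apply DifferentiableOn.diffContOnCl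
  apply hk.mono
  rw [closure_ball _ hr0.ne']
  exact Metric.closedBall_subset_ball hr

theorem fb_div_bound {ι : Type} {a : ι → ℂ} (ha : ∀ i, ‖a i‖ < 1) (s : Finset ι) (k : ℂ → ℂ)
    (hk : DifferentiableOn ℂ k (Metric.ball 0 1)) (M : ℝ)
    (hM : ∀ z ∈ Metric.ball (0:ℂ) 1, ‖fb a s z * k z‖ ≤ M) (z : ℂ) (hz : z ∈ Metric.ball (0:ℂ) 1) :
    ‖k z‖ ≤ M := by
  by_contra hcon
  push Not at hcon
  have hM0 : 0 ≤ M := (norm_nonneg _).trans (hM z hz)
  have hk0 : 0 < ‖k z‖ := lt_of_le_of_lt hM0 hcon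
  obtain ⟨η, hη1, hη2⟩ := exists_between ((div_lt_one hk0).mpr hcon)
  have hη0 : 0 < η := lt_of_le_of_lt (div_nonneg hM0 hk0.le) hη1
  obtain ⟨r₀, hr₀, h1⟩ := fb_near ha s hη2
  have hz1 : ‖z‖ < 1 := by simpa using hz
  obtain ⟨r, hr1, hr2⟩ := exists_between (max_lt hr₀ hz1)
  have hrz : ‖z‖ < r := lt_of_le_of_lt (le_max_right _ _) hr1
  have hrr : r₀ < r := lt_of_le_of_lt (le_max_left _ _) hr1
  have hr0 : 0 < r := lt_of_le_of_lt (norm_nonneg _) hrz
  have h2 : ‖k z‖ ≤ M / η := by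
    apply Complex.norm_le_of_forall_mem_frontier_norm_le Metric.isBounded_ball
      (diffContOnCl_of hk hr0 hr2)
    · intro w hw
      rw [frontier_ball _ hr0.ne', mem_sphere_zero_iff_norm] at hw
      have h3 := h1 w (by rw [hw]; exact hrr) (by rw [hw]; exact hr2)
      have h4 := hM w (by simpa [hw] using hr2)
      rw [norm_mul] at h4
      rw [le_div_iff₀ hη0]
      nlinarith [norm_nonneg (k w)]
    · apply subset_closure
      simpa using hrz
  have h5 : M / η < ‖k z‖ := by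
    rw [div_lt_iff₀ hη0]
    rw [div_lt_iff₀ hk0] at hη1
    linarith
  linarith

/-- B2: division by a Blaschke product -/
theorem div_bound {f : ℂ → ℂ} (h : IsBlaschke f) (m : ℂ → ℂ)
    (hm : DifferentiableOn ℂ m (Metric.ball 0 1)) (M : ℝ)
    (hM : ∀ z ∈ Metric.ball (0:ℂ) 1, ‖f z * m z‖ ≤ M) (z : ℂ) (hz : z ∈ Metric.ball (0:ℂ) 1) :
    ‖m z‖ ≤ M := by
  obtain ⟨ι, a, h⟩ := h
  have ha := h.1
  obtain ⟨g, h1, h2, h3, h4⟩ := tail h
  have h5 : ∀ s, ‖g s z‖ * ‖m z‖ ≤ M := by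
    intro s
    rw [← norm_mul]
    apply fb_div_bound ha s (fun w => g s w * m w) ((h1 s).mul hm) M _ z hz
    intro w hw
    have := hM w hw
    rw [h3 s w hw] at this
    rwa [← mul_assoc]
  have h6 : Tendsto (fun s => ‖g s z‖ * ‖m z‖) atTop (𝓝 (1 * ‖m z‖)) := (h4 z hz).mul_const _
  rw [one_mul] at h6
  exact le_of_tendsto h6 (Eventually.of_forall h5)

/-- B5: a zero-free bounded factor of a Blaschke product is unimodular -/
theorem factor_unimodular {f : ℂ → ℂ} (h : IsBlaschke f) (p q : ℂ → ℂ)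
    (hp : DifferentiableOn ℂ p (Metric.ball 0 1)) (hq : DifferentiableOn ℂ q (Metric.ball 0 1))
    (hp1 : ∀ z ∈ Metric.ball (0:ℂ) 1, ‖p z‖ ≤ 1) (hq1 : ∀ z ∈ Metric.ball (0:ℂ) 1, ‖q z‖ ≤ 1)
    (hpq : ∀ z ∈ Metric.ball (0:ℂ) 1, f z = p z * q z)
    (hp0 : ∀ z ∈ Metric.ball (0:ℂ) 1, p z ≠ 0) (z : ℂ) (hz : z ∈ Metric.ball (0:ℂ) 1) :
    ‖p z‖ = 1 := by
  apply le_antisymm (hp1 z hz)
  obtain ⟨ι, a, h⟩ := h
  have ha := h.1
  obtain ⟨g, h1, h2, h3, h4⟩ := tail h
  have h5 : ∀ s, ‖g s z‖ ≤ ‖p z‖ := by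
    intro s
    have h6 : ‖g s z / p z‖ ≤ 1 := by
      apply fb_div_bound ha s (fun w => g s w / p w) ((h1 s).div hp hp0) 1 _ z hz
      intro w hw
      have h7 : fb a s w * (g s w / p w) = q w := by
        rw [← mul_div_assoc, ← h3 s w hw, hpq w hw, mul_div_assoc, mul_div_cancel₀]
        exact hp0 w hw
      rw [h7]
      exact hq1 w hw
    rw [norm_div, div_le_one (norm_pos_iff.mpr (hp0 z hz))] at h6
    exact h6
  exact le_of_tendsto (h4 z hz) (Eventually.of_forall h5)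

theorem norm_circleAverage_le {f : ℂ → ℂ} {c : ℂ} {R : ℝ} :
    ‖Real.circleAverage f c R‖ ≤ Real.circleAverage (fun z => ‖f z‖) c R := by
  rw [Real.circleAverage, Real.circleAverage, norm_smul, smul_eq_mul, Real.norm_eq_abs,
    abs_of_pos (inv_pos.2 Real.two_pi_pos)]
  apply mul_le_mul_of_nonneg_left _ (inv_pos.2 Real.two_pi_pos).le
  exact intervalIntegral.norm_integral_le_integral_norm Real.two_pi_pos.le

theorem circInt {g : ℂ → ℝ} {r : ℝ} (hr0 : 0 < r) (hr : r < 1)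
    (hg : ContinuousOn g (Metric.ball 0 1)) : CircleIntegrable g 0 r := by
  apply ContinuousOn.circleIntegrable'
  apply hg.mono
  intro w hw
  rw [mem_sphere_zero_iff_norm, abs_of_pos hr0] at hw
  simpa [hw] using hr

/-- B3: circle means -/
theorem circle_mean {f : ℂ → ℂ} (h : IsBlaschke f) :
    Tendsto (fun r => Real.circleAverage (fun z => 1 - ‖f z‖) 0 r) (𝓝[<] 1) (𝓝 0) := by
  have hfd := differentiableOn h
  have hf1 := norm_le_one h
  have hfc : ContinuousOn (fun z => 1 - ‖f z‖) (Metric.ball (0:ℂ) 1) :=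
    continuousOn_const.sub hfd.continuousOn.norm
  obtain ⟨ι, a, h⟩ := h
  have ha := h.1
  obtain ⟨g, h1, h2, h3, h4⟩ := tail h
  rw [Metric.tendsto_nhds]
  intro ε hε
  obtain ⟨s, hs⟩ := ((h4 0 (by simp)).eventually
    (lt_mem_nhds (show 1 - ε / 2 < (1:ℝ) by linarith))).exists
  obtain ⟨r₀, hr₀, h5⟩ := fb_near ha s (show 1 - ε / 2 < (1:ℝ) by linarith)
  have e1 : ∀ᶠ r : ℝ in 𝓝[<] 1, r < 1 := eventually_mem_nhdsWithin
  have e2 : ∀ᶠ r : ℝ in 𝓝[<] 1, 0 < r := nhdsWithin_le_nhds (lt_mem_nhds (by norm_num))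
  have e3 : ∀ᶠ r : ℝ in 𝓝[<] 1, r₀ < r := nhdsWithin_le_nhds (lt_mem_nhds hr₀)
  filter_upwards [e1, e2, e3] with r hr1 hr2 hr3
  have hnn : 0 ≤ Real.circleAverage (fun z => 1 - ‖f z‖) 0 r := by
    apply Real.circleAverage_nonneg_of_nonneg
    intro w hw
    rw [mem_sphere_zero_iff_norm, abs_of_pos hr2] at hw
    have := hf1 w (by simpa [hw] using hr1)
    linarith
  rw [Real.dist_eq, sub_zero, abs_of_nonneg hnn]
  have hgc : ContinuousOn (fun z => ‖g s z‖) (Metric.ball (0:ℂ) 1) := (h1 s).continuousOn.norm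
  have h6 : Real.circleAverage (fun z => 1 - ‖f z‖) 0 r
      ≤ Real.circleAverage (fun z => (ε / 2 + 1) - ‖g s z‖) 0 r := by
    apply Real.circleAverage_mono (circInt hr2 hr1 hfc)
      (circInt hr2 hr1 (continuousOn_const.sub hgc))
    intro w hw
    rw [mem_sphere_zero_iff_norm, abs_of_pos hr2] at hw
    have hwb : w ∈ Metric.ball (0:ℂ) 1 := by simpa [hw] using hr1
    have k1 := h5 w (by rw [hw]; exact hr3) (by rw [hw]; exact hr1)
    have k2 := fb_norm_le ha s (w := w) (by rw [hw]; exact hr1.le)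
    have k3 := h2 s w hwb
    have k4 : 1 - ‖f w‖ ≤ ε / 2 + 1 - ‖g s w‖ := by
      rw [h3 s w hwb, norm_mul]
      nlinarith [norm_nonneg (g s w), norm_nonneg (fb a s w),
        mul_nonneg (sub_nonneg.mpr k2) (sub_nonneg.mpr k3)]
    exact k4
  have h7 : Real.circleAverage (fun z => (ε / 2 + 1) - ‖g s z‖) 0 r
      = (ε / 2 + 1) - Real.circleAverage (fun z => ‖g s z‖) 0 r := by
    rw [Real.circleAverage_fun_sub (circInt hr2 hr1 continuousOn_const) (circInt hr2 hr1 hgc),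
      Real.circleAverage_const]
  have h8 : ‖g s 0‖ ≤ Real.circleAverage (fun z => ‖g s z‖) 0 r := by
    have h9 : Real.circleAverage (g s) 0 r = g s 0 := by
      apply DiffContOnCl.circleAverage
      rw [abs_of_pos hr2]
      exact diffContOnCl_of (h1 s) hr2 hr1
    rw [← h9]
    exact norm_circleAverage_le
  linarith

/-- B4: real boundary values -/
theorem const_of_real (f : ℂ → ℂ) (hf : DifferentiableOn ℂ f (Metric.ball 0 1)) (M : ℝ)
    (hM : ∀ z ∈ Metric.ball (0:ℂ) 1, ‖f z‖ ≤ M)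
    (him : Tendsto (fun r => Real.circleAverage (fun z => |(f z).im|) 0 r) (𝓝[<] 1) (𝓝 0))
    (z : ℂ) (hz : z ∈ Metric.ball (0:ℂ) 1) : f z = f 0 := by
  have hIm : ∀ z ∈ Metric.ball (0:ℂ) 1, (f z).im = 0 := by
    intro z hz
    have hz1 : ‖z‖ < 1 := by simpa using hz
    have hlim : Tendsto (fun r : ℝ => (r + ‖z‖) / (r - ‖z‖) *
        Real.circleAverage (fun z => |(f z).im|) 0 r) (𝓝[<] 1) (𝓝 0) := by
      have h1 : Tendsto (fun r : ℝ => (r + ‖z‖) / (r - ‖z‖)) (𝓝[<] 1)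
          (𝓝 ((1 + ‖z‖) / (1 - ‖z‖))) := by
        apply Tendsto.mono_left _ nhdsWithin_le_nhds
        apply ContinuousAt.tendsto
        have : (1:ℝ) - ‖z‖ ≠ 0 := by linarith
        fun_prop (disch := exact this)
      have := h1.mul him
      simpa using this
    have hle : ∀ᶠ r : ℝ in 𝓝[<] 1, |(f z).im| ≤ (r + ‖z‖) / (r - ‖z‖) *
        Real.circleAverage (fun z => |(f z).im|) 0 r := by
      have e1 : ∀ᶠ r : ℝ in 𝓝[<] 1, r < 1 := eventually_mem_nhdsWithin
      have e2 : ∀ᶠ r : ℝ in 𝓝[<] 1, ‖z‖ < r := nhdsWithin_le_nhds (lt_mem_nhds hz1)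
      filter_upwards [e1, e2] with r hr1 hr2
      have hr0 : 0 < r := lt_of_le_of_lt (norm_nonneg _) hr2
      have hzr : z ∈ Metric.ball (0:ℂ) r := by simpa using hr2
      have h1 := (diffContOnCl_of hf hr0 hr1).circleAverage_re_herglotzRieszKernel_smul' hzr
      simp only [sub_zero] at h1
      have hci : CircleIntegrable (fun w => ((w + z) / (w - z)).re • f w) 0 r := by
        apply ContinuousOn.circleIntegrable'
        intro w hw
        rw [mem_sphere_zero_iff_norm, abs_of_pos hr0] at hw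
        have hwz : w - z ≠ 0 := by
          intro h0
          rw [sub_eq_zero] at h0
          rw [h0] at hw; linarith
        apply ContinuousWithinAt.fun_smul
        · apply ContinuousAt.continuousWithinAt
          have : ContinuousAt (fun w : ℂ => (w + z) / (w - z)) w := by
            fun_prop (disch := exact hwz)
          exact Complex.continuous_re.continuousAt.comp this
        · apply ContinuousAt.continuousWithinAt
          exact (hf.differentiableAt (Metric.isOpen_ball.mem_nhds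
            (by simpa [hw] using hr1))).continuousAt
      have h2 := Complex.imCLM.circleAverage_comp_comm hci
      rw [h1] at h2
      have h3 : (f z).im = Real.circleAverage (fun w => ((w + z) / (w - z)).re * (f w).im) 0 r := by
        rw [show (f z).im = Complex.imCLM (f z) from rfl, ← h2]
        congr 1
        funext w
        simp
      rw [h3]
      refine Real.abs_circleAverage_le_circleAverage_abs.trans ?_
      rw [← smul_eq_mul, ← Real.circleAverage_fun_smul]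
      have hfim : ContinuousOn (fun w => |(f w).im|) (Metric.ball (0:ℂ) 1) :=
        (Complex.continuous_im.comp_continuousOn hf.continuousOn).abs
      apply Real.circleAverage_mono
      · apply ContinuousOn.circleIntegrable'
        intro w hw
        rw [mem_sphere_zero_iff_norm, abs_of_pos hr0] at hw
        have hwz : w - z ≠ 0 := by
          intro h0
          rw [sub_eq_zero] at h0
          rw [h0] at hw; linarith
        apply ContinuousAt.continuousWithinAt
        have c1 : ContinuousAt (fun w : ℂ => ((w + z) / (w - z)).re) w := by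
          have : ContinuousAt (fun w : ℂ => (w + z) / (w - z)) w := by
            fun_prop (disch := exact hwz)
          exact Complex.continuous_re.continuousAt.comp this
        have c2 : ContinuousAt (fun w : ℂ => (f w).im) w :=
          Complex.continuous_im.continuousAt.comp (hf.differentiableAt (Metric.isOpen_ball.mem_nhds
            (by simpa [hw] using hr1))).continuousAt
        exact (c1.mul c2).abs
      · exact circInt hr0 hr1 (continuousOn_const.fun_smul hfim)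
      · intro w hw
        rw [abs_of_pos hr0] at hw
        have k1 := re_herglotzRieszKernel_le hw hzr
        have k2 := le_re_herglotzRieszKernel hw hzr
        simp only [sub_zero] at k1 k2
        have k3 : 0 ≤ (r - ‖z‖) / (r + ‖z‖) := by
          apply div_nonneg <;> linarith [norm_nonneg z]
        simp only [Pi.abs_apply, abs_mul, smul_eq_mul]
        rw [abs_of_nonneg (k3.trans k2)]
        exact mul_le_mul_of_nonneg_right k1 (abs_nonneg _)
    have := ge_of_tendsto hlim hle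
    exact abs_nonpos_iff.mp this
  have han : AnalyticOnNhd ℂ f (Metric.ball 0 1) := hf.analyticOnNhd Metric.isOpen_ball
  rcases han.is_constant_or_isOpen (convex_ball (0:ℂ) 1).isPreconnected with ⟨w, hw⟩ | h1
  · rw [hw z hz, hw 0 (by simp)]
  · exfalso
    have h2 := h1 _ subset_rfl Metric.isOpen_ball
    have h3 : f 0 ∈ f '' Metric.ball (0:ℂ) 1 := ⟨0, by simp, rfl⟩
    obtain ⟨ε, hε, h4⟩ := Metric.isOpen_iff.mp h2 _ h3
    have h5 : f 0 + (ε / 2 : ℝ) * I ∈ Metric.ball (f 0) ε := by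
      rw [mem_ball_iff_norm, add_sub_cancel_left, norm_mul, Complex.norm_I, mul_one,
        Complex.norm_real, Real.norm_eq_abs, abs_of_pos (by linarith)]
      linarith
    obtain ⟨w, hw, hw2⟩ := h4 h5
    have h6 := hIm w hw
    rw [hw2] at h6
    have h7 := hIm 0 (by simp)
    simp only [Complex.add_im, h7, Complex.mul_im, Complex.ofReal_re, Complex.I_im, Complex.ofReal_im,
      Complex.I_re] at h6
    linarith

end Pool.Agent.H.MP_c9945a_an
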