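import Pool.Agent.H.MP_c9945a_an.Descent
import Pool.Agent.H.MP_c9945a_an.Disc

set_option autoImplicit false
set_option linter.unusedSectionVars false

namespace Pool.Agent.H.MP_c9945a_an

open Complex Set Filter Topology
open scoped Manifold ContDiff ComplexConjugate

/-- repeated division by a Blaschke product -/
theorem div_bound_pow {f : ℂ → ℂ} (h : IsBlaschke f) (n : ℕ) (m : ℂ → ℂ)
    (hm : DifferentiableOn ℂ m (Metric.ball 0 1)) (M : ℝ)
    (hM : ∀ z ∈ Metric.ball (0:ℂ) 1, ‖f z ^ n * m z‖ ≤ M) (z : ℂ)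
    (hz : z ∈ Metric.ball (0:ℂ) 1) : ‖m z‖ ≤ M := by
  induction n with
  | zero => simpa using hM z hz
  | succ n ih =>
    apply ih
    intro w hw
    refine div_bound h (fun w => f w ^ n * m w) ?_ M ?_ w hw
    · exact ((differentiableOn h).pow n).mul hm
    · intro w hw
      have := hM w hw
      rw [pow_succ] at this
      convert this using 2
      ring

theorem mobius_bound {ξ w : ℂ} (hξ : ‖ξ‖ < 1) (hw : ‖w‖ < 1) :
    ‖(ξ - w) / (1 - conj ξ * w)‖ < 1 := by
  have h0 : 1 - conj ξ * w ≠ 0 := den_ne hξ hw.le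
  rw [norm_div, div_lt_one (norm_pos_iff.mpr h0)]
  have h1 : ‖ξ - w‖ ^ 2 < ‖1 - conj ξ * w‖ ^ 2 := by
    rw [← Complex.normSq_eq_norm_sq, ← Complex.normSq_eq_norm_sq]
    have hξ' : Complex.normSq ξ < 1 := by
      rw [Complex.normSq_eq_norm_sq]; nlinarith [norm_nonneg ξ]
    have hw' : Complex.normSq w < 1 := by
      rw [Complex.normSq_eq_norm_sq]; nlinarith [norm_nonneg w]
    have h2 : 0 < (1 - Complex.normSq ξ) * (1 - Complex.normSq w) :=
      mul_pos (by linarith) (by linarith)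
    rw [Complex.normSq_apply] at *
    rw [Complex.normSq_apply] at *
    simp only [Complex.sub_re, Complex.sub_im, Complex.mul_re, Complex.mul_im, Complex.conj_re,
      Complex.conj_im, Complex.one_re, Complex.one_im, Complex.normSq_apply] at *
    nlinarith [h2]
  exact lt_of_pow_lt_pow_left₀ 2 (norm_nonneg _) h1

/-- elementary: bounds from power sums -/
theorem pow_bound {u v : ℂ} {m : ℝ} (hm : 0 ≤ m) (h1 : ∀ n : ℕ, 1 ≤ n → ‖u ^ n + v ^ n‖ ≤ 2 * m ^ n)
    (h2 : ‖u * v‖ ≤ m ^ 2) : ‖u‖ ≤ m := by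
  have key : ∀ n : ℕ, 1 ≤ n → ‖u‖ ^ n ≤ 3 * m ^ n := by
    intro n hn
    have e1 : u ^ n * u ^ n = u ^ n * (u ^ n + v ^ n) - (u * v) ^ n := by
      rw [mul_pow]; ring
    have e2 : ‖u‖ ^ n * ‖u‖ ^ n ≤ ‖u‖ ^ n * (2 * m ^ n) + (m ^ n) ^ 2 := by
      calc ‖u‖ ^ n * ‖u‖ ^ n = ‖u ^ n * u ^ n‖ := by rw [norm_mul, norm_pow]
        _ = ‖u ^ n * (u ^ n + v ^ n) - (u * v) ^ n‖ := by rw [e1]
        _ ≤ ‖u ^ n * (u ^ n + v ^ n)‖ + ‖(u * v) ^ n‖ := norm_sub_le _ _
        _ ≤ ‖u‖ ^ n * (2 * m ^ n) + (m ^ n) ^ 2 := by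
          rw [norm_mul, norm_pow, norm_pow]
          gcongr
          · exact h1 n hn
          · calc ‖u * v‖ ^ n ≤ (m ^ 2) ^ n := by gcongr
              _ = (m ^ n) ^ 2 := by ring
    by_contra hcon
    push Not at hcon
    have hmn : 0 ≤ m ^ n := by positivity
    have hy : 0 ≤ ‖u‖ ^ n := by positivity
    nlinarith
  by_contra hcon
  push Not at hcon
  rcases hm.eq_or_lt with h0 | h0
  · subst h0
    have := key 1 le_rfl
    simp at this
    rw [this] at hcon
    simp at hcon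
  · have hr : 1 < ‖u‖ / m := by rwa [one_lt_div h0]
    obtain ⟨n, hn⟩ := pow_unbounded_of_one_lt 3 hr
    have h3 := key (n+1) (by omega)
    have h4 : (‖u‖ / m) ^ n ≤ (‖u‖ / m) ^ (n+1) := pow_le_pow_right₀ hr.le (by omega)
    have h5 : (‖u‖ / m) ^ (n+1) ≤ 3 := by
      rw [div_pow, div_le_iff₀ (by positivity)]
      exact h3
    linarith

section RS
variable {X : Type} [TopologicalSpace X] [T2Space X] [ChartedSpace ℂ X]
  [IsManifold 𝓘(ℂ) ω X] [ConnectedSpace X]

theorem main {X : Type} [TopologicalSpace X] [T2Space X] [ChartedSpace ℂ X]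
    [IsManifold 𝓘(ℂ) ω X] [ConnectedSpace X]
    (φ : X → ℂ) (σ : X → X) (h : TwoSheeted φ σ)
    (hinf : {x | IsCrit φ x}.Infinite)
    (_hsum : Summable fun x : {x | IsCrit φ x} => 1 - ‖φ x‖)
    (B : ℂ → ℂ) {ι : Type} (a : ι → ℂ) (hB : IsBlaschkeWith a B) (ha : Function.Injective a)
    (hcrit : range a = φ '' {x | IsCrit φ x})
    (t : X → ℂ) (ht : Hol t) (ht2 : ∀ x, t x ^ 2 = B (φ x))
    (ξ : ℂ) (hξ0 : 0 < ‖ξ‖) (hξ1 : ‖ξ‖ < 1)
    (hβ : IsBlaschke (fun z => (ξ ^ 2 - B z) / (1 - conj ξ ^ 2 * B z))) :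
    Irred (fun x => (ξ - t x) / (1 - conj ξ * t x)) := by
  have hBB : IsBlaschke B := ⟨ι, a, hB⟩
  have hBd := differentiableOn hBB
  have hB0 := hBB.exists_ne
  have hc : ∀ z ∈ Metric.ball (0:ℂ) 1, B z = 0 ↔ ∃ x, φ x = z ∧ IsCrit φ x := by
    intro z hz
    rw [zero_iff hB z hz]
    have : (∃ i, a i = z) ↔ z ∈ range a := Iff.rfl
    rw [this, hcrit]
    constructor
    · rintro ⟨x, hx, hxz⟩; exact ⟨x, hxz, hx⟩
    · rintro ⟨x, hxz, hx⟩; exact ⟨x, hx, hxz⟩
  have hBz : ∃ z ∈ Metric.ball (0:ℂ) 1, B z = 0 := by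
    obtain ⟨x, hx⟩ := hinf.nonempty
    have hz : φ x ∈ Metric.ball (0:ℂ) 1 := by simpa using h.lt_one x
    exact ⟨φ x, hz, (hc _ hz).2 ⟨x, rfl, hx⟩⟩
  have hBs : ∀ z ∈ Metric.ball (0:ℂ) 1, B z = 0 → deriv B z ≠ 0 :=
    fun z hz h0 => deriv_ne_zero hB ha z hz h0
  have hanti := theta_anti h hBd hB0 hBs hBz hc t ht ht2
  -- strict bound of B
  have hBlt : ∀ z ∈ Metric.ball (0:ℂ) 1, ‖B z‖ < 1 := by
    intro z hz
    by_contra hcon
    push Not at hcon
    have h1 : ‖B z‖ = 1 := le_antisymm (norm_le_one hBB z hz) hcon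
    obtain ⟨z0, hz0, hz0'⟩ := hBz
    have hmax : IsMaxOn (norm ∘ B) (Metric.ball 0 1) z := by
      intro w hw
      simp only [Function.comp, mem_ofPred_eq, h1]
      exact norm_le_one hBB w hw
    have := Complex.norm_eqOn_of_isPreconnected_of_isMaxOn
      (convex_ball (0:ℂ) 1).isPreconnected Metric.isOpen_ball hBd hz hmax hz0
    simp [hz0', h1] at this
  have hφ : ∀ x, φ x ∈ Metric.ball (0:ℂ) 1 := fun x => by simpa using h.lt_one x
  have htlt : ∀ x, ‖t x‖ < 1 := by
    intro x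
    have h1 := hBlt _ (hφ x)
    rw [← ht2 x, norm_pow] at h1
    by_contra hcon
    push Not at hcon
    have : 1 ≤ ‖t x‖ ^ 2 := one_le_pow₀ hcon
    linarith
  set θ : X → ℂ := fun x => (ξ - t x) / (1 - conj ξ * t x) with hθ
  have hden1 : ∀ x, 1 - conj ξ * t x ≠ 0 := fun x => den_ne hξ1 (htlt x).le
  have hden2 : ∀ x, 1 + conj ξ * t x ≠ 0 := by
    intro x
    have := den_ne hξ1 (z := - t x) (by simpa using (htlt x).le)
    simpa using this
  have hθσ : ∀ x, θ x * θ (σ x) = (ξ ^ 2 - B (φ x)) / (1 - conj ξ ^ 2 * B (φ x)) := by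
    intro x
    have h1 := hden1 x
    have h2 := hden2 x
    have e0 : 1 - conj ξ ^ 2 * B (φ x) = (1 - conj ξ * t x) * (1 + conj ξ * t x) := by
      rw [← ht2 x]; ring
    rw [e0]
    simp only [hθ, hanti x, ← ht2 x]
    have e1 : 1 - conj ξ * - t x = 1 + conj ξ * t x := by ring
    rw [e1]
    field_simp
    ring
  have hθlt : ∀ x, ‖θ x‖ < 1 := fun x => mobius_bound hξ1 (htlt x)
  have hθhol : Hol θ := by
    refine ht.comp_disc htlt (g := fun w => (ξ - w) / (1 - conj ξ * w)) ?_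
    intro w hw
    have hw' : ‖w‖ < 1 := by simpa using hw
    apply DifferentiableAt.differentiableWithinAt
    apply DifferentiableAt.div
    · fun_prop
    · fun_prop
    · exact den_ne hξ1 hw'.le
  have hquasi : QuasiProper θ := by
    refine ⟨hθhol, hθlt, ?_⟩
    intro f hf
    apply le_antisymm
    · -- the essential inequality
      rcases _root_.eq_or_ne (⨆ x, ‖θ x * f x‖ₑ) ⊤ with htop | htop
      · rw [htop]; exact le_top
      · set m : ℝ := (⨆ x, ‖θ x * f x‖ₑ).toReal with hmdef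
        have hm0 : 0 ≤ m := ENNReal.toReal_nonneg
        have hm : ∀ x, ‖θ x * f x‖ ≤ m := by
          intro x
          have h1 : ‖θ x * f x‖ₑ ≤ ⨆ x, ‖θ x * f x‖ₑ := le_iSup (fun x => ‖θ x * f x‖ₑ) x
          have h2 := ENNReal.toReal_mono htop h1
          rw [toReal_enorm] at h2
          exact h2
        have hfb : ∀ x, ‖f x‖ ≤ m := by
          intro x
          apply pow_bound hm0 (v := f (σ x))
          · intro n hn
            obtain ⟨g, hg1, hg2⟩ := descent h hBd hB0 hc (fun x => f x ^ n + f (σ x) ^ n) (by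
              have h1 : Hol (fun x => f (σ x)) := hf.comp_self h.sigma_hol
              have hp : ∀ (g : X → ℂ), Hol g → ∀ k : ℕ, Hol (fun x => g x ^ k) := by
                intro g hg k
                induction k with
                | zero => simpa using Hol.const (X := X) 1
                | succ k ih => simpa [pow_succ] using ih.mul' hg
              exact (hp _ hf n).add' (hp _ h1 n)) (by
                intro x; simp only [h.sigma_sigma]; ring)
            have hb : ∀ z ∈ Metric.ball (0:ℂ) 1,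
                ‖((ξ ^ 2 - B z) / (1 - conj ξ ^ 2 * B z)) ^ n * g z‖ ≤ 2 * m ^ n := by
              intro z hz
              obtain ⟨y, rfl⟩ := surj h z (by simpa using hz)
              rw [← hθσ y, ← hg2 y]
              have e : (θ y * θ (σ y)) ^ n * (f y ^ n + f (σ y) ^ n) =
                  θ (σ y) ^ n * (θ y * f y) ^ n + θ y ^ n * (θ (σ y) * f (σ y)) ^ n := by
                simp only [mul_pow]; ring
              rw [e]
              calc _ ≤ ‖θ (σ y) ^ n * (θ y * f y) ^ n‖ + ‖θ y ^ n * (θ (σ y) * f (σ y)) ^ n‖ :=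
                    norm_add_le _ _
                _ ≤ 1 * m ^ n + 1 * m ^ n := by
                  rw [norm_mul, norm_mul, norm_pow, norm_pow, norm_pow, norm_pow]
                  gcongr
                  · exact pow_le_one₀ (norm_nonneg _) (hθlt _).le
                  · exact hm y
                  · exact pow_le_one₀ (norm_nonneg _) (hθlt _).le
                  · exact hm (σ y)
                _ = 2 * m ^ n := by ring
            have := div_bound_pow hβ n g hg1 (2 * m ^ n) hb (φ x) (hφ x)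
            rw [← hg2 x] at this
            exact this
          · obtain ⟨g, hg1, hg2⟩ := descent h hBd hB0 hc (fun x => f x * f (σ x))
              (hf.mul' (hf.comp_self h.sigma_hol)) (by
                intro x; simp only [h.sigma_sigma]; ring)
            have hb : ∀ z ∈ Metric.ball (0:ℂ) 1,
                ‖((ξ ^ 2 - B z) / (1 - conj ξ ^ 2 * B z)) ^ 1 * g z‖ ≤ m ^ 2 := by
              intro z hz
              obtain ⟨y, rfl⟩ := surj h z (by simpa using hz)
              rw [← hθσ y, ← hg2 y]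
              have e : (θ y * θ (σ y)) ^ 1 * (f y * f (σ y)) =
                  (θ y * f y) * (θ (σ y) * f (σ y)) := by ring
              rw [e, norm_mul, sq]
              exact mul_le_mul (hm y) (hm (σ y)) (norm_nonneg _) hm0
            have := div_bound_pow hβ 1 g hg1 (m ^ 2) hb (φ x) (hφ x)
            rw [← hg2 x] at this
            exact this
        apply iSup_le
        intro x
        rw [← ENNReal.ofReal_toReal htop, ← hmdef, ← ofReal_norm]
        exact ENNReal.ofReal_le_ofReal (hfb x)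
    · apply iSup_mono
      intro x
      rw [enorm_mul]
      calc ‖θ x‖ₑ * ‖f x‖ₑ ≤ 1 * ‖f x‖ₑ := by
            gcongr
            rw [← ofReal_norm]
            exact ENNReal.ofReal_le_one.mpr (hθlt x).le
        _ = ‖f x‖ₑ := one_mul _
  refine ⟨hquasi, ?_⟩
  -- not a product: symmetric lemma
  have key : ∀ θ₁ θ₂ : X → ℂ, (∀ x, ‖θ₁ x‖ < 1) → (∀ x, ‖θ₂ x‖ < 1) →
      (∀ x, θ x = θ₁ x * θ₂ x) → ∀ a b c d : ℂ → ℂ,
      DifferentiableOn ℂ a (Metric.ball 0 1) → DifferentiableOn ℂ b (Metric.ball 0 1) →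
      DifferentiableOn ℂ c (Metric.ball 0 1) → DifferentiableOn ℂ d (Metric.ball 0 1) →
      (∀ x, θ₁ x = a (φ x) + b (φ x) * t x) → (∀ x, θ₂ x = c (φ x) + d (φ x) * t x) →
      (∀ z ∈ Metric.ball (0:ℂ) 1, b z = 0) → False := by
    intro θ₁ θ₂ h1 h2 hprod a b c d had hbd hcd hdd e1 e2 hb0
    have e1' : ∀ x, θ₁ x = a (φ x) := by
      intro x; rw [e1 x, hb0 _ (hφ x)]; ring
    have hne : ∀ z ∈ Metric.ball (0:ℂ) 1, a z ≠ 0 := by
      intro z hz h0
      obtain ⟨x, rfl⟩ := surj h z (by simpa using hz)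
      have f1 : θ x = 0 := by rw [hprod, e1', h0, zero_mul]
      have f2 : θ (σ x) = 0 := by rw [hprod, e1', h.phi_sigma, h0, zero_mul]
      have g1 : ξ - t x = 0 := by
        have := f1
        simp only [hθ, div_eq_zero_iff] at this
        exact this.resolve_right (hden1 x)
      have g2 : ξ - t (σ x) = 0 := by
        have := f2
        simp only [hθ, div_eq_zero_iff] at this
        exact this.resolve_right (hden1 (σ x))
      rw [hanti] at g2
      have : ξ = 0 := by linear_combination (g1 + g2) / 2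
      simp [this] at hξ0
    have hq : ∀ x, c (φ x) ^ 2 - d (φ x) ^ 2 * B (φ x) = θ₂ x * θ₂ (σ x) := by
      intro x
      rw [e2 x, e2 (σ x), h.phi_sigma, hanti, ← ht2 x]; ring
    have huni := factor_unimodular hβ a (fun z => a z * (c z ^ 2 - d z ^ 2 * B z)) had
      (had.mul ((hcd.pow 2).sub ((hdd.pow 2).mul hBd)))
      (by
        intro z hz
        obtain ⟨x, rfl⟩ := surj h z (by simpa using hz)
        rw [← e1' x]; exact (h1 x).le)
      (by
        intro z hz
        obtain ⟨x, rfl⟩ := surj h z (by simpa using hz)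
        show ‖a (φ x) * (c (φ x) ^ 2 - d (φ x) ^ 2 * B (φ x))‖ ≤ 1
        rw [hq x, ← e1' x, norm_mul, norm_mul]
        have i1 := (h1 x).le
        have i2 := (h2 x).le
        have i3 := (h2 (σ x)).le
        calc ‖θ₁ x‖ * (‖θ₂ x‖ * ‖θ₂ (σ x)‖) ≤ 1 * (1 * 1) := by gcongr
          _ = 1 := by norm_num)
      (by
        intro z hz
        obtain ⟨x, rfl⟩ := surj h z (by simpa using hz)
        show (ξ ^ 2 - B (φ x)) / (1 - conj ξ ^ 2 * B (φ x)) =
          a (φ x) * (a (φ x) * (c (φ x) ^ 2 - d (φ x) ^ 2 * B (φ x)))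
        rw [hq x, ← hθσ x, hprod x, hprod (σ x), e1' x, e1' (σ x), h.phi_sigma]
        ring)
      hne
    obtain ⟨x⟩ : Nonempty X := inferInstance
    have := huni (φ x) (hφ x)
    rw [← e1' x] at this
    linarith [h1 x]
  rintro ⟨θ₁, θ₂, hq1, hq2, hprod⟩
  obtain ⟨a', b, ha', hb, hab⟩ := decomp h hBd hB0 hBs hBz hc t ht ht2 θ₁ hq1.1
  obtain ⟨c, d, hc', hd, hcd⟩ := decomp h hBd hB0 hBs hBz hc t ht ht2 θ₂ hq2.1
  have hbound : ∀ (θ₁ : X → ℂ) (a b : ℂ → ℂ), (∀ x, ‖θ₁ x‖ < 1) →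
      (∀ x, θ₁ x = a (φ x) + b (φ x) * t x) →
      ∀ z ∈ Metric.ball (0:ℂ) 1, ∀ w, w ^ 2 = B z → ‖a z + b z * w‖ ≤ 1 := by
    intro θ₁ a b h1 hab z hz w hw
    obtain ⟨x, rfl⟩ := surj h z (by simpa using hz)
    have hsq : w ^ 2 = t x ^ 2 := by rw [hw, ht2]
    rcases sq_eq_sq_iff_eq_or_eq_neg.mp hsq with hw' | hw'
    · rw [hw', ← hab x]; exact (h1 x).le
    · have : a (φ x) + b (φ x) * w = θ₁ (σ x) := by
        rw [hab, h.phi_sigma, hanti, hw']
      rw [this]; exact (h1 _).le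
  have hN : ∀ z ∈ Metric.ball (0:ℂ) 1, (a' z ^ 2 - b z ^ 2 * B z) * (c z ^ 2 - d z ^ 2 * B z)
      = (ξ ^ 2 - B z) / (1 - conj ξ ^ 2 * B z) := by
    intro z hz
    obtain ⟨x, rfl⟩ := surj h z (by simpa using hz)
    rw [← hθσ x, hprod x, hprod (σ x), hab, hab, hcd, hcd, h.phi_sigma, hanti, ← ht2 x]
    ring
  rcases disc_main hBB hBz hξ0 hξ1 hβ a' b c d ha' hb hc' hd (hbound θ₁ a' b hq1.2.1 hab)
    (hbound θ₂ c d hq2.2.1 hcd) hN with hb0 | hd0
  · exact key θ₁ θ₂ hq1.2.1 hq2.2.1 hprod a' b c d ha' hb hc' hd hab hcd hb0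
  · exact key θ₂ θ₁ hq2.2.1 hq1.2.1 (fun x => by rw [hprod x]; ring) c d a' b hc' hd ha' hb
      hcd hab hd0

end RS

end Pool.Agent.H.MP_c9945a_an
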